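import Pool.Agent.OEGZ.Basic

/-! # OEGZ: soundness

* `sound_wt`: induction on `k`.  `k = 1`: `|τ L| ≥ p`, so `0 ∈ τ L`.  `k + 1`: `L = W ++ R` with `W` of type `ML (r + 1)` (so `rl W = r + 2`),
  `inr (τ W) :: R` has weight `≥ min (p - 1) (wt W) + wt R`; `Snd.red`.
* `sound_full`: induction on `Full`; base: `sound_wt`; step: `L ~r W ++ R`, `rl W = r + 2`, `Snd.red`, `Snd.rot` (`k ≥ 2` since
  `rl L ≥ r + 2`).
* `sound_lin`: induction on `k`.  `L = X ++ L0` where `X` has no letters and `L0` starts with a letter (`rl L ≥ 1`).  `k = 1`: `L0 = M ++ Z`,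
  `M` of type `ML`, starting with a letter, `rl Z = 0`; `Gd τ v L` by `Gd.ext`, and `0 = v + x` with `x ∈ ss L`.  `k + 1`: let `W` be the prefix of `L`
  of type `ML (r + 1)`; it is `X ++ M ++ Z ++ [inl b]`, so `Gd τ v W`; `0 = (k + 1) v + x + y`, `x ∈ ss W`, `y ∈ ss R`, so
  `0 ∈ k v + ss (inr (τ W) :: R)`; an `ML`-part of `inr (τ W) :: R` that starts with a letter is inside `R`.
* `sound_val`: induction on the reduction sequence; terminal: `sound_lin` (`AP`); step: as before, `Gd τ v W`, `ss_perm`. -/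

set_option autoImplicit false

open scoped Classical Pointwise

namespace Pool.Agent.OEGZ

variable {A : Type} {p r : ℕ} {τ : List (It A p) → Finset (ZMod p)} {Z : ℕ → List (It A p) → Prop}

theorem sound_pos {k n : ℕ} (h : n + 1 = (r + 2) * k) : 1 ≤ k := by
  rcases k with _ | k
  · simp at h
  · omega

/-- the first letter -/
theorem sound_first {L : List (It A p)} (h : 1 ≤ rl L) :
    ∃ (X : List (It A p)) (a : A) (L1 : List (It A p)), L = X ++ Sum.inl a :: L1 ∧ rl X = 0 := by
  induction L with
  | nil => simp at h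
  | cons x L ih =>
    rcases x with a | S
    · exact ⟨[], a, L, rfl, rfl⟩
    · obtain ⟨X, a, L1, rfl, hX⟩ := ih (by simpa using h)
      exact ⟨Sum.inr S :: X, a, L1, rfl, by simpa using hX⟩

theorem sound_wt [hp : Fact p.Prime] (hτ : Tau r τ) (hZ : Snd r τ Z) {k : ℕ} {L : List (It A p)}
    (hok : Ok L) (hrl : rl L + 1 = (r + 2) * k) (hk : 1 ≤ k) (hwt : p ≤ wt L + 1) : Z k L := by
  induction k generalizing L with
  | zero => omega
  | succ k ih =>
    rcases Nat.eq_zero_or_pos k with rfl | hk1
    · have h1 : rl L = r + 1 := by omega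
      have h2 := hτ.card L hok (by omega)
      have h3 : p ≤ (τ L).card := by
        rw [min_eq_left (by omega)] at h2
        exact h2
      have h4 : τ L = Finset.univ := by
        apply Finset.eq_univ_of_card
        have h5 := Finset.card_le_univ (τ L)
        rw [ZMod.card] at h5 ⊢
        omega
      refine hZ.one L h1 ?_
      rw [h4]
      exact Finset.mem_univ _
    · have h0 : (r + 2) * (k + 1) = (r + 2) * k + (r + 2) := by ring
      have h1 : (r + 2) * 1 ≤ (r + 2) * k := Nat.mul_le_mul_left _ hk1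
      obtain ⟨W, R, rfl, hW⟩ := exists_ML (r := r + 1) (L := L) (by omega)
      have h2 := hW.rl_eq
      rw [rl_append, h2] at hrl
      refine hZ.red k W R h2 ?_
      have h3 := hτ.card W hok.of_append_left (by omega)
      have h4 := hτ.nonempty hok.of_append_left (show r + 1 ≤ rl W by omega)
      refine ih (hok.of_append_right.cons_inr h4) ?_ hk1 ?_
      · rw [rl_inr]
        omega
      · rw [wt_inr]
        rw [wt_append] at hwt
        have h5 := h4.card_pos
        have h6 := hp.out.pos
        omega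

theorem sound_full [hp : Fact p.Prime] (hτ : Tau r τ) (hZ : Snd r τ Z) {k : ℕ} {L : List (It A p)}
    (hok : Ok L) (hrl : rl L + 1 = (r + 2) * k) (hf : Full τ r L) : Z k L := by
  induction hf generalizing k with
  | base L hL => exact sound_wt hτ hZ hok hrl (sound_pos hrl) hL
  | step L L' hred _ ih =>
    obtain ⟨W, R, hrot, hW, -, -, rfl⟩ := hred
    have h1 := rl_perm hrot.perm
    rw [rl_append, hW.rl_eq] at h1
    have h2 := sound_pos hrl
    obtain ⟨k', rfl⟩ : ∃ k', k = k' + 1 := ⟨k - 1, by omega⟩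
    have h3 : (r + 2) * (k' + 1) = (r + 2) * k' + (r + 2) := by ring
    have hok' := hok.perm hrot.perm
    have h4 := hτ.nonempty hok'.of_append_left (show r + 1 ≤ rl W by rw [hW.rl_eq]; omega)
    have h5 := ih (k := k') (hok'.of_append_right.cons_inr h4) (by rw [rl_inr]; omega)
    exact hZ.rot _ _ _ hrot.symm (hZ.red k' W R hW.rl_eq h5)

theorem sound_lin [hp : Fact p.Prime] (hτ : Tau r τ) (hZ : Snd r τ Z) {k : ℕ} {v : ZMod p}
    {L : List (It A p)} (hrl : rl L + 1 = (r + 2) * k) (hk : 1 ≤ k)
    (hgd : ∀ (X M Y : List (It A p)) (a : A) (U : List (It A p)), L = X ++ M ++ Y → M = Sum.inl a :: U →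
      ML r M → Gd τ v M)
    (h0 : ∃ x ∈ ss L, (k : ZMod p) * v + x = 0) : Z k L := by
  induction k generalizing L with
  | zero => omega
  | succ k ih =>
    have h1 : (r + 2) * (k + 1) = (r + 2) * k + (r + 2) := by ring
    obtain ⟨X, a, L1, rfl, hX⟩ := sound_first (L := L) (by omega)
    obtain ⟨M, Z', hL1, hM⟩ := exists_ML (r := r) (L := (Sum.inl a :: L1 : List (It A p))) (by
      rw [rl_append, hX] at hrl
      omega)
    obtain ⟨U, rfl⟩ : ∃ U, M = Sum.inl a :: U := by
      rcases M with _ | ⟨y, U⟩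
      · have := hM.rl_eq
        simp at this
      · rw [List.cons_append] at hL1
        have := (List.cons.inj hL1).1
        exact ⟨U, by rw [this]⟩
    have hgM : Gd τ v (Sum.inl a :: U) := hgd X (Sum.inl a :: U) Z' a U
      (by rw [hL1, List.append_assoc]) rfl hM
    rcases Nat.eq_zero_or_pos k with rfl | hk1
    · have h2 : Gd τ v (X ++ Sum.inl a :: L1) := by
        have := Gd.ext hτ hgM X Z'
        rwa [List.append_assoc, ← hL1] at this
      obtain ⟨x, hx, hx0⟩ := h0
      refine hZ.one _ (by omega) ?_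
      have h3 := h2 x hx
      have h4 : v + x = 0 := by
        simpa using hx0
      rwa [h4] at h3
    · have h2 : (r + 2) * 1 ≤ (r + 2) * k := Nat.mul_le_mul_left _ hk1
      have h3 : rl Z' = rl (X ++ Sum.inl a :: L1) - (r + 1) := by
        rw [rl_append, hL1, rl_append, hM.rl_eq, hX]
        omega
      obtain ⟨Zl, b, R, rfl, hZl⟩ := sound_first (L := Z') (by omega)
      have hdec : X ++ Sum.inl a :: L1 = (X ++ Sum.inl a :: U ++ (Zl ++ [Sum.inl b])) ++ R := by
        rw [hL1]
        simp
      have hgW : Gd τ v (X ++ Sum.inl a :: U ++ (Zl ++ [Sum.inl b])) :=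
        Gd.ext hτ hgM X (Zl ++ [Sum.inl b])
      have hrW : rl (X ++ Sum.inl a :: U ++ (Zl ++ [Sum.inl b])) = r + 2 := by
        rw [rl_append, rl_append, hM.rl_eq, hX, rl_append, hZl]
        simp
      generalize X ++ Sum.inl a :: U ++ (Zl ++ [Sum.inl b]) = W at hdec hgW hrW
      rw [hdec] at hrl hgd h0 ⊢
      rw [rl_append, hrW] at hrl
      refine hZ.red k W R hrW ?_
      refine ih (by rw [rl_inr]; omega) hk1 ?_ ?_
      · intro X' M' Y' a' U' hX' hM' hML
        rcases X' with _ | ⟨x, X''⟩
        · rw [hM'] at hX'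
          simp at hX'
        · have h5 : R = X'' ++ M' ++ Y' := by
            rw [List.cons_append, List.cons_append] at hX'
            exact (List.cons.inj hX').2
          refine hgd (W ++ X'') M' Y' a' U' ?_ hM' hML
          rw [h5]
          simp
      · obtain ⟨x, hx, hx0⟩ := h0
        rw [ss_append, Finset.mem_add] at hx
        obtain ⟨y, hy, z, hz, rfl⟩ := hx
        refine ⟨(v + y) + z, ?_, ?_⟩
        · rw [ss_inr]
          exact Finset.add_mem_add (hgW y hy) hz
        · push_cast at hx0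
          linear_combination hx0

theorem sound_val [hp : Fact p.Prime] (hτ : Tau r τ) (hZ : Snd r τ Z) {k : ℕ} {v : ZMod p}
    {L : List (It A p)} (hrl : rl L + 1 = (r + 2) * k) (hk : 1 ≤ k) (hval : Val τ r (Gd τ v) L v)
    (h0 : ∃ x ∈ ss L, (k : ZMod p) * v + x = 0) : Z k L := by
  obtain ⟨L', hchain, hTm, hAP⟩ := hval
  induction hchain using Relation.ReflTransGen.head_induction_on generalizing k with
  | refl =>
    refine sound_lin hτ hZ hrl hk ?_ h0
    intro X M Y a U hL hM hML
    refine (hAP M (Y ++ X) ?_ hML).1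
    rw [hL, List.append_assoc, ← List.append_assoc M Y X]
    exact List.isRotated_append
  | head hred _ ih =>
    obtain ⟨W, R, hrot, hW, -, hgW, rfl⟩ := hred
    have h1 := rl_perm hrot.perm
    rw [rl_append, hW.rl_eq] at h1
    obtain ⟨k', rfl⟩ : ∃ k', k = k' + 1 := ⟨k - 1, by omega⟩
    have h3 : (r + 2) * (k' + 1) = (r + 2) * k' + (r + 2) := by ring
    have h4 : rl R + 1 = (r + 2) * k' := by omega
    have h5 := ih (k := k') (by rw [rl_inr]; exact h4) (sound_pos h4) (by
      obtain ⟨x, hx, hx0⟩ := h0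
      rw [ss_perm hrot.perm, ss_append, Finset.mem_add] at hx
      obtain ⟨y, hy, z, hz, rfl⟩ := hx
      refine ⟨(v + y) + z, ?_, ?_⟩
      · rw [ss_inr]
        exact Finset.add_mem_add (hgW y hy) hz
      · push_cast at hx0
        linear_combination hx0)
    exact hZ.rot _ _ _ hrot.symm (hZ.red k' W R hW.rl_eq h5)

end Pool.Agent.OEGZ
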