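import Pool.Agent.OEGZ.Resolve
import Pool.Agent.OEGZ.Sound

/-! # OEGZ: abstract main theorem

`L` consists of letters only, so `wt L = 0`, `ss L = {0}`, `St r p L`.  If `Full τ r L`: `sound_full`.  Otherwise `exist`, `resolve`, `sound_val`
with `(p : ZMod p) * v + 0 = 0`. -/

set_option autoImplicit false

open scoped Classical Pointwise

namespace Pool.Agent.OEGZ

variable {A : Type} {p r : ℕ} {τ : List (It A p) → Finset (ZMod p)} {Z : ℕ → List (It A p) → Prop}

theorem abs_main [hp : Fact p.Prime] (hτ : Tau r τ) (hZ : Snd r τ Z) (l : List A)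
    (hl : l.length + 1 = (r + 2) * p) : Z p (l.map Sum.inl) := by
  have hrl : rl (l.map Sum.inl : List (It A p)) = l.length := by
    clear hl
    induction l with
    | nil => rfl
    | cons a l ih => simp [ih]
  have hwt : wt (l.map Sum.inl : List (It A p)) = 0 := by
    clear hl hrl
    induction l with
    | nil => rfl
    | cons a l ih => simpa using ih
  have hss : ss (l.map Sum.inl : List (It A p)) = {0} := by
    clear hl hrl hwt
    induction l with
    | nil => rfl
    | cons a l ih => simpa using ih
  have hok : Ok (l.map Sum.inl : List (It A p)) := by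
    intro S hS
    rw [List.mem_map] at hS
    obtain ⟨a, -, ha⟩ := hS
    cases ha
  have hst : St r p (l.map Sum.inl : List (It A p)) :=
    ⟨by rw [hrl, hl], hok, by omega, hp.out.pos⟩
  by_cases hf : Full τ r (l.map Sum.inl : List (It A p))
  · exact sound_full hτ hZ hok hst.len hf
  · obtain ⟨v, hv⟩ := exist hτ hst hf
    refine sound_val hτ hZ hst.len hst.pos (resolve hτ hst hf hv) ⟨0, ?_, ?_⟩
    · rw [hss]
      exact Finset.mem_singleton_self _
    · simp

end Pool.Agent.OEGZ
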