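import Pool.Agent.OEGZ.BaseL

/-! # OEGZ: states, invariance under rotation, existence of the constant

* `RedP.st`: `wt L' = |τ W| - 1 + wt R ≥ wt L + 1`, `rl L' = rl L - (r + 2)`.
* `St.two`: if `k = 1` then `p ≤ wt L + 1`, so `L` is full; if `wt L + 1 ≥ p`, `L` is full.
* `exist`: induction on `k` (or on `rl L`): if `Tm τ r L`, use `base_lemma`; otherwise there is a growing window, apply the induction
  hypothesis to the reduced list. -/

set_option autoImplicit false

open scoped Classical Pointwise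

namespace Pool.Agent.OEGZ

variable {A : Type} {p r : ℕ} {τ : List (It A p) → Finset (ZMod p)}

theorem St.rot {k : ℕ} {L L' : List (It A p)} (h : St r k L) (hL : L.IsRotated L') : St r k L' := by
  have hp := hL.perm
  refine ⟨?_, h.ok.perm hp, ?_, h.pos⟩
  · rw [← rl_perm hp]
    exact h.len
  · rw [← wt_perm hp]
    exact h.pw

theorem exist_redrot {P : List (It A p) → Prop} {L L' M : List (It A p)} (h : RedP τ r P L M)
    (hL : L.IsRotated L') : RedP τ r P L' M := by
  obtain ⟨W, R, h1, h2⟩ := h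
  exact ⟨W, R, hL.symm.trans h1, h2⟩

theorem Full.rot {L L' : List (It A p)} (h : Full τ r L) (hL : L.IsRotated L') : Full τ r L' := by
  cases h with
  | base _ h => exact Full.base L' (by rw [← wt_perm hL.perm]; exact h)
  | step _ M h1 h2 => exact Full.step L' M (exist_redrot h1 hL) h2

theorem RedP.rot {P : List (It A p) → Prop} {L L' M : List (It A p)} (h : RedP τ r P L M)
    (hL : L.IsRotated L') : RedP τ r P L' M := exist_redrot h hL

theorem Val.rot {P : List (It A p) → Prop} {L L' : List (It A p)} {v : ZMod p} (h : Val τ r P L v)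
    (hL : L.IsRotated L') : Val τ r P L' v := by
  obtain ⟨L1, hred, hT, hA⟩ := h
  rcases Relation.ReflTransGen.cases_head hred with h1 | ⟨M, h1, h2⟩
  · subst h1
    exact ⟨L', Relation.ReflTransGen.refl, fun W R h3 h4 => hT W R (hL.trans h3) h4,
      fun M R h3 h4 => hA M R (hL.trans h3) h4⟩
  · exact ⟨L1, Relation.ReflTransGen.head (exist_redrot h1 hL) h2, hT, hA⟩

theorem RedP.tr {P : List (It A p) → Prop} {L L' : List (It A p)} (h : RedP τ r P L L') :
    RedP τ r Tr L L' := by
  obtain ⟨W, R, h1, h2, h3, _, h5⟩ := h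
  exact ⟨W, R, h1, h2, h3, trivial, h5⟩

theorem RedP.st [hp : Fact p.Prime] {P : List (It A p) → Prop} {k : ℕ} {L L' : List (It A p)}
    (hs : St r (k + 1) L) (hk : 1 ≤ k) (h : RedP τ r P L L') : St r k L' := by
  obtain ⟨W, R, h1, h2, h3, _, rfl⟩ := h
  have e1 : rl L = rl W + rl R := by rw [rl_perm h1.perm, rl_append]
  have e2 : wt L = wt W + wt R := by rw [wt_perm h1.perm, wt_append]
  have e3 := h2.rl_eq
  have hg : 2 + wt W ≤ (τ W).card := h3
  have hlen := hs.len
  have hpw := hs.pw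
  refine ⟨?_, ?_, ?_, hk⟩
  · rw [rl_inr]
    have : (r + 2) * (k + 1) = (r + 2) * k + (r + 2) := by ring
    omega
  · refine Ok.cons_inr (hs.ok.perm h1.perm).of_append_right ?_
    rw [← Finset.card_pos]
    omega
  · rw [wt_inr]
    omega

theorem RedP.notFull {P : List (It A p) → Prop} {L L' : List (It A p)} (h : RedP τ r P L L')
    (hf : ¬ Full τ r L) : ¬ Full τ r L' :=
  fun h' => hf (Full.step L L' h.tr h')

theorem St.two {k : ℕ} {L : List (It A p)} (hs : St r k L) (hf : ¬ Full τ r L) :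
    2 ≤ k ∧ wt L + 2 ≤ p ∧ 2 * (r + 2) ≤ rl L + 1 := by
  have h1 : ¬ p ≤ wt L + 1 := fun h => hf (Full.base L h)
  have h2 := hs.pw
  have h3 := hs.len
  have h4 : 2 ≤ k := by omega
  refine ⟨h4, by omega, ?_⟩
  rw [h3, mul_comm]
  exact Nat.mul_le_mul_left _ h4

/-- one reduction step of a non-full state -/
theorem RedP.st' [hp : Fact p.Prime] {P : List (It A p) → Prop} {k : ℕ} {L L' : List (It A p)}
    (hs : St r k L) (hf : ¬ Full τ r L) (h : RedP τ r P L L') :
    ∃ k', k = k' + 1 ∧ St r k' L' ∧ ¬ Full τ r L' := by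
  obtain ⟨h2, _, _⟩ := hs.two hf
  obtain ⟨k', rfl⟩ : ∃ k', k = k' + 1 := ⟨k - 1, by omega⟩
  exact ⟨k', rfl, RedP.st hs (by omega) h, h.notFull hf⟩

theorem exist [hp : Fact p.Prime] (hτ : Tau r τ) {k : ℕ} {L : List (It A p)} (hs : St r k L)
    (hf : ¬ Full τ r L) : ∃ v, Val τ r Tr L v := by
  induction k generalizing L with
  | zero => exact absurd hs.pos (by omega)
  | succ k ih =>
    by_cases hT : Tm τ r L
    · obtain ⟨_, h2, h3⟩ := hs.two hf
      obtain ⟨v, hv⟩ := base_lemma hτ h3 hs.ok h2 hT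
      exact ⟨v, L, Relation.ReflTransGen.refl, hT, hv⟩
    · unfold Tm at hT
      push Not at hT
      obtain ⟨W, R, h1, h2, h3⟩ := hT
      have hred : RedP τ r Tr L (Sum.inr (τ W) :: R) := ⟨W, R, h1, h2, h3, trivial, rfl⟩
      obtain ⟨k', hk', h4, h5⟩ := RedP.st' hs hf hred
      have hk : k' = k := by omega
      subst hk
      obtain ⟨v, L1, h6, h7⟩ := ih h4 h5
      exact ⟨v, L1, Relation.ReflTransGen.head hred h6, h7⟩

end Pool.Agent.OEGZ
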