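import Pool.Agent.OEGZ.ArcStep
import Pool.Agent.OEGZ.Exist

/-! # OEGZ: an arc without growing `P`-windows contains a `v`-good `ML`-part

Induction on the reduction sequence (`Relation.ReflTransGen.head_induction_on`), for all `D`, `C`.  Terminal list: `rl C ≥ r + 2`,
`C = M ++ Y` with `M` of type `ML`, `L ~r D ++ C ~r M ++ (Y ++ D)`.  Step: the removed window `W` has `P W`, `Gr τ W`, so it is not inside `C`;
`arc_step` (with `x = inr (τ W)`) gives `D'`, `C'` for the reduced list, and windows inside `C'` are windows inside `C`;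
`RedP.st'` gives the hypotheses for the reduced list. -/

set_option autoImplicit false

open scoped Classical Pointwise

namespace Pool.Agent.OEGZ

variable {A : Type} {p r : ℕ} {τ : List (It A p) → Finset (ZMod p)}

theorem arc_main [hp : Fact p.Prime] (hτ : Tau r τ) {P : List (It A p) → Prop} {k : ℕ} {v : ZMod p}
    {L D C : List (It A p)} (hs : St r k L) (hf : ¬ Full τ r L) (hLD : L.IsRotated (D ++ C))
    (hD : rl D ≤ r + 1) (hno : ∀ X W Y, C = X ++ W ++ Y → Win r W → Gr τ W → ¬ P W)
    (hval : Val τ r P L v) : ∃ X M Y, C = X ++ M ++ Y ∧ ML r M ∧ GM τ v M := by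
  obtain ⟨L', hred, -, hAP⟩ := hval
  induction hred using Relation.ReflTransGen.head_induction_on generalizing k D C with
  | refl =>
    obtain ⟨-, -, h1⟩ := hs.two hf
    have h2 := rl_perm hLD.perm
    rw [rl_append] at h2
    obtain ⟨M, Y, hC, hM⟩ := exists_ML (r := r) (L := C) (by omega)
    refine ⟨[], M, Y, by simpa using hC, hM, hAP M (Y ++ D) ?_ hM⟩
    refine hLD.trans ?_
    have h3 : (D ++ C).IsRotated (C ++ D) := List.isRotated_append
    rw [← List.append_assoc, ← hC]
    exact h3
  | head h _ ih =>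
    have hred := h
    obtain ⟨W, R, hW, hwin, hgr, hPW, rfl⟩ := h
    obtain ⟨-, -, h1⟩ := hs.two hf
    obtain ⟨D', C', X, Y, h2, h3, h4⟩ := arc_step hLD hW hD h1 hwin
      (fun X Y hXY => hno X W Y hXY hwin hgr hPW) (Sum.inr (τ W)) (by simp)
    obtain ⟨k', -, hs', hf'⟩ := hred.st' hs hf
    obtain ⟨X', M, Y', h5, h6, h7⟩ := ih hs' hf' h2 h3 (fun X' W' Y' h8 => by
      refine hno (X ++ X') W' (Y' ++ Y) ?_
      rw [h4, h8]
      simp only [List.append_assoc])
    refine ⟨X ++ X', M, Y' ++ Y, ?_, h6, h7⟩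
    rw [h4, h5]
    simp only [List.append_assoc]

end Pool.Agent.OEGZ
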