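import Pool.Agent.OEGZ.Basic

/-! # OEGZ: removing a window that is not inside the arc `C` leaves an arc of `C` (list combinatorics)

`V ++ R` is a rotation of `D ++ C`: `D ++ C = X ++ Y`, `V ++ R = Y ++ X`.
(a) `Y = V ++ Z`, `R = Z ++ X`: `D ++ C = X ++ V ++ Z`.  If `|X| ≥ |D|` then `V` is inside `C`, excluded.  Otherwise `D = X ++ D2`,
`D2 ++ C = V ++ Z`, `V` is longer than `D2` (it has more letters), `V = D2 ++ V2`, `C = V2 ++ Z`, and
`x :: R = x :: (Z ++ X) ~r (X ++ [x]) ++ Z`: `D' = X ++ [x]`, `C' = Z`.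
(b) `V = Y ++ V2`, `X = V2 ++ R`: `D ++ C = V2 ++ R ++ Y`.
 - `|V2| ≥ |D|`: `V2 = D ++ V3`, `C = V3 ++ R ++ Y`: `D' = [x]`, `C' = R`.
 - `|V2| < |D| ≤ |V2| + |R|`: `D = V2 ++ D3`, `R = D3 ++ R3`, `C = R3 ++ Y`: `D' = x :: D3`, `C' = R3`.
 - `|D| > |V2| + |R|`: `D = V2 ++ R ++ D4`, `Y = D4 ++ C`, `D4 ≠ []`, `V = D4 ++ C ++ V2` starts with a letter, so `rl D4 ≥ 1` and
   `rl C ≤ r + 1`, but `rl C = rl L - rl D ≥ r + 2`: impossible.
(`rl D' ≤ rl D ≤ r + 1` in all cases; `rl [x] = 0`.) -/

set_option autoImplicit false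

open scoped Classical Pointwise

namespace Pool.Agent.OEGZ

variable {A : Type} {p r : ℕ}

theorem arcstep_nil_of_rl {a : A} {D W V : List (It A p)} (h : Sum.inl a :: V = D ++ W) (hD : rl D = 0) :
    D = [] := by
  rcases D with _ | ⟨d, D⟩
  · rfl
  · exfalso
    rw [List.cons_append] at h
    have h1 := (List.cons.inj h).1
    subst h1
    simp at hD

theorem arcstep_nil_of_rl' {b : A} {D W V : List (It A p)} (h : V ++ [Sum.inl b] = W ++ D) (hD : rl D = 0) :
    D = [] := by
  rcases List.eq_nil_or_concat D with h0 | ⟨D', x, h0⟩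
  · exact h0
  · exfalso
    rw [h0, List.concat_eq_append, ← List.append_assoc] at h
    have h1 := List.append_inj' h rfl
    have h2 : Sum.inl b = x := by simpa using h1.2
    rw [h0, ← h2, List.concat_eq_append, rl_append] at hD
    simp at hD

theorem arc_step {D C V R L : List (It A p)} (hL : L.IsRotated (D ++ C)) (hV : L.IsRotated (V ++ R))
    (hD : rl D ≤ r + 1) (hrl : 2 * (r + 2) ≤ rl L + 1) (hwin : Win r V)
    (hno : ∀ X Y, C ≠ X ++ V ++ Y) (x : It A p) (hx : rl [x] = 0) :
    ∃ D' C' X Y, (x :: R).IsRotated (D' ++ C') ∧ rl D' ≤ r + 1 ∧ C = X ++ C' ++ Y := by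
  have hcons : ∀ l : List (It A p), rl (x :: l) = rl l := by
    intro l
    have h1 : rl (x :: l) = rl ([x] ++ l) := rfl
    rw [h1, rl_append, hx, zero_add]
  have hrlL : rl L = rl D + rl C := by
    rw [rl_perm hL.perm, rl_append]
  have hVrl := hwin.rl_eq
  obtain ⟨k, hk, hrot⟩ := (List.isRotated_iff_mod.1 (hL.symm.trans hV))
  rw [List.rotate_eq_drop_append_take hk] at hrot
  obtain ⟨X, Y, hXY, hX⟩ : ∃ X Y, D ++ C = X ++ Y ∧ V ++ R = Y ++ X :=
    ⟨(D ++ C).take k, (D ++ C).drop k, (List.take_append_drop k _).symm, hrot.symm⟩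
  rcases List.append_eq_append_iff.1 hX with ⟨Z, hY, hR⟩ | ⟨V2, hV2, hX2⟩
  · subst hY
    subst hR
    rcases List.append_eq_append_iff.1 hXY with ⟨E, hE1, hE2⟩ | ⟨D2, hD2, hE2⟩
    · exact absurd (by rw [hE2, List.append_assoc]) (hno E Z)
    · rcases List.append_eq_append_iff.1 hE2 with ⟨E, hE3, hE4⟩ | ⟨V2, hV2, hC⟩
      · exfalso
        rw [hD2, hE3, rl_append, rl_append] at hD
        omega
      · refine ⟨X ++ [x], Z, V2, [], ?_, ?_, ?_⟩
        · have h1 : (x :: (Z ++ X)).IsRotated (X ++ (x :: Z)) := by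
            rw [← List.cons_append]
            exact List.isRotated_append
          simpa using h1
        · rw [rl_append, hx]
          rw [hD2, rl_append] at hD
          omega
        · rw [hC, List.append_nil]
  · subst hX2
    rw [List.append_assoc] at hXY
    rcases List.append_eq_append_iff.1 hXY with ⟨V3, hV3, hC⟩ | ⟨D3, hD3, hE⟩
    · refine ⟨[x], R, V3, Y, ?_, ?_, ?_⟩
      · exact List.IsRotated.refl _
      · rw [hx]
        omega
      · rw [hC, List.append_assoc]
    · rcases List.append_eq_append_iff.1 hE with ⟨D4, hD4, hY⟩ | ⟨R3, hR3, hC⟩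
      · exfalso
        have h1 : rl V = rl D4 + rl C + rl V2 := by
          rw [hV2, hY, rl_append, rl_append]
        have h2 : rl D = rl V2 + (rl R + rl D4) := by
          rw [hD3, hD4]
          simp
        have h3 : rl D4 = 0 := by omega
        have h4 : rl V2 = 0 := by omega
        obtain ⟨a, U, b, hVU, hU⟩ := hwin
        have h5 : D4 = [] := by
          refine arcstep_nil_of_rl (a := a) (V := U ++ [Sum.inl b]) (W := C ++ V2) ?_ h3
          rw [← hVU, hV2, hY, List.append_assoc]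
        have h6 : V2 = [] := by
          refine arcstep_nil_of_rl' (b := b) (V := Sum.inl a :: U) (W := Y) ?_ h4
          rw [← hV2, hVU, List.cons_append]
        subst h5
        subst h6
        apply hno [] []
        rw [hV2, hY]
        simp
      · refine ⟨x :: D3, R3, [], Y, ?_, ?_, ?_⟩
        · rw [hR3, List.cons_append]
        · rw [hcons]
          rw [hD3, rl_append] at hD
          omega
        · rw [hC, List.nil_append]

end Pool.Agent.OEGZ
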