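import Pool.Agent.OEGZ.Cv

/-! # OEGZ: two progressions with the same difference and size are translates

`Cv.explicit`: a nonempty `S` with `|S| < p` has a starting point `a` (otherwise `S - d ⊆ S` and `S` is everything);
every other `x ∈ S` has `x - d ∈ S`; so `S = {a + i d | i < |S|}`. -/

set_option autoImplicit false

open scoped Classical Pointwise

namespace Pool.Agent.OEGZ

variable {A : Type} {p : ℕ}

/-- a set closed under subtraction of `d` is everything -/
private theorem cvcard_univ [hp : Fact p.Prime] {d : ZMod p} {S : Finset (ZMod p)} (hd : d ≠ 0)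
    (hne : S.Nonempty) (h : ∀ x ∈ S, x - d ∈ S) (y : ZMod p) : y ∈ S := by
  obtain ⟨x, hx⟩ := hne
  have h1 : ∀ i : ℕ, x - (i : ZMod p) * d ∈ S := by
    intro i
    induction i with
    | zero => simpa using hx
    | succ i ih =>
      have h2 := h _ ih
      have h3 : x - ((i + 1 : ℕ) : ZMod p) * d = x - (i : ZMod p) * d - d := by
        push_cast
        ring
      rw [h3]
      exact h2
  have h2 := h1 ((x - y) / d).val
  rw [ZMod.natCast_val, ZMod.cast_id', id_eq, div_mul_cancel₀ _ hd, sub_sub_cancel] at h2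
  exact h2

private theorem cvcard_down [hp : Fact p.Prime] {d : ZMod p} {S : Finset (ZMod p)} (h : Cv d S)
    {a : ZMod p} (ha : a ∈ S) (had : a - d ∉ S) (hd : d ≠ 0) :
    ∀ i : ℕ, i < p → a + (i : ZMod p) * d ∈ S → ∀ j ≤ i, a + (j : ZMod p) * d ∈ S := by
  intro i
  induction i with
  | zero =>
    intro _ hi j hj
    have : j = 0 := by omega
    rw [this]
    exact hi
  | succ i ih =>
    intro hip hi j hj
    rcases Nat.lt_or_ge j (i + 1) with hlt | hge
    · refine ih (by omega) ?_ j (by omega)
      by_contra hcon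
      have h1 : a + ((i + 1 : ℕ) : ZMod p) * d - d = a + (i : ZMod p) * d := by
        push_cast
        ring
      have h2 : a + ((i + 1 : ℕ) : ZMod p) * d = a := by
        refine h _ hi _ ha ?_ had
        rw [h1]
        exact hcon
      have h3 : ((i + 1 : ℕ) : ZMod p) * d = 0 := by
        have h4 := h2
        rwa [add_eq_left] at h4
      rcases mul_eq_zero.1 h3 with h4 | h4
      · rw [ZMod.natCast_eq_zero_iff] at h4
        have := Nat.le_of_dvd (by omega) h4
        omega
      · exact hd h4
    · have : j = i + 1 := by omega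
      rw [this]
      exact hi

private theorem cvcard_inj [hp : Fact p.Prime] {d : ZMod p} (hd : d ≠ 0) (a : ZMod p) {n : ℕ} (hn : n ≤ p) :
    ((Finset.range n).image (fun i : ℕ => a + (i : ZMod p) * d)).card = n := by
  rw [Finset.card_image_of_injOn, Finset.card_range]
  intro i hi j hj hij
  rw [Finset.mem_coe, Finset.mem_range] at hi hj
  have h1 : (i : ZMod p) * d = (j : ZMod p) * d := add_left_cancel hij
  have h2 : (i : ZMod p) = (j : ZMod p) := mul_right_cancel₀ hd h1
  have h3 := congrArg ZMod.val h2
  rwa [ZMod.val_natCast_of_lt (by omega), ZMod.val_natCast_of_lt (by omega)] at h3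

theorem Cv.explicit [hp : Fact p.Prime] {d : ZMod p} {S : Finset (ZMod p)} (hd : d ≠ 0) (h : Cv d S)
    (hne : S.Nonempty) (hlt : S.card < p) :
    ∃ a : ZMod p, S = (Finset.range S.card).image (fun i : ℕ => a + (i : ZMod p) * d) := by
  obtain ⟨a, ha, had⟩ : ∃ a ∈ S, a - d ∉ S := by
    by_contra hcon
    push Not at hcon
    have h1 : S = Finset.univ := Finset.eq_univ_iff_forall.2 (cvcard_univ hd hne hcon)
    rw [h1, Finset.card_univ, ZMod.card] at hlt
    exact lt_irrefl _ hlt
  refine ⟨a, Finset.eq_of_subset_of_card_le ?_ (Finset.card_image_le.trans (Finset.card_range _).le)⟩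
  intro x hx
  have hxi : a + ((((x - a) / d).val : ℕ) : ZMod p) * d = x := by
    rw [ZMod.natCast_val, ZMod.cast_id', id_eq, div_mul_cancel₀ _ hd]
    ring
  set i := ((x - a) / d).val with hi
  have hip : i < p := ZMod.val_lt _
  have hall := cvcard_down h ha had hd i hip (by rw [hxi]; exact hx)
  have hsub : (Finset.range (i + 1)).image (fun j : ℕ => a + (j : ZMod p) * d) ⊆ S := by
    intro y hy
    rw [Finset.mem_image] at hy
    obtain ⟨j, hj, rfl⟩ := hy
    rw [Finset.mem_range] at hj
    exact hall j (by omega)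
  have hcard := Finset.card_le_card hsub
  rw [cvcard_inj hd a (by omega)] at hcard
  rw [Finset.mem_image]
  exact ⟨i, Finset.mem_range.2 (by omega), hxi⟩

theorem Cv.translate [hp : Fact p.Prime] {d : ZMod p} {S T : Finset (ZMod p)} (hd : d ≠ 0)
    (hS : Cv d S) (hT : Cv d T) (hne : S.Nonempty) (hc : S.card = T.card) (hlt : S.card < p) :
    ∃ v : ZMod p, ∀ x ∈ T, v + x ∈ S := by
  have hTne : T.Nonempty := by
    rw [← Finset.card_pos, ← hc]
    exact hne.card_pos
  obtain ⟨a, ha⟩ := hS.explicit hd hne hlt
  obtain ⟨b, hb⟩ := hT.explicit hd hTne (hc ▸ hlt)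
  refine ⟨a - b, fun x hx => ?_⟩
  rw [hb, Finset.mem_image] at hx
  obtain ⟨i, hi, rfl⟩ := hx
  rw [ha, Finset.mem_image]
  refine ⟨i, ?_, by ring⟩
  rw [hc]
  exact hi

theorem Cv.card_add_le [hp : Fact p.Prime] {d : ZMod p} {S T : Finset (ZMod p)} (hd : d ≠ 0)
    (hS : Cv d S) (hT : Cv d T) (hSne : S.Nonempty) (hTne : T.Nonempty) (hSlt : S.card < p)
    (hTlt : T.card < p) : (S + T).card + 1 ≤ S.card + T.card := by
  obtain ⟨a, ha⟩ := hS.explicit hd hSne hSlt
  obtain ⟨b, hb⟩ := hT.explicit hd hTne hTlt
  have h1 := hSne.card_pos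
  have h2 := hTne.card_pos
  have hsub : S + T ⊆ (Finset.range (S.card + T.card - 1)).image (fun k : ℕ => a + b + (k : ZMod p) * d) := by
    intro z hz
    rw [Finset.mem_add] at hz
    obtain ⟨x, hx, y, hy, rfl⟩ := hz
    rw [ha, Finset.mem_image] at hx
    rw [hb, Finset.mem_image] at hy
    obtain ⟨i, hi, rfl⟩ := hx
    obtain ⟨j, hj, rfl⟩ := hy
    rw [Finset.mem_range] at hi hj
    rw [Finset.mem_image]
    refine ⟨i + j, Finset.mem_range.2 (by omega), ?_⟩
    push_cast
    ring
  have h3 := (Finset.card_le_card hsub).trans (Finset.card_image_le.trans (Finset.card_range _).le)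
  omega

/-- the sumset of the set items is a progression -/
theorem ss_cv {d : ZMod p} {L : List (It A p)} (h : ∀ S : Finset (ZMod p), Sum.inr S ∈ L → Cv d S) :
    Cv d (ss L) := by
  induction L with
  | nil => exact Cv.of_card_le_one (by simp)
  | cons x L ih =>
    have ih' := ih fun S hS => h S (List.mem_cons_of_mem _ hS)
    rcases x with a | S
    · exact ih'
    · exact Cv.add (h S List.mem_cons_self) ih'

/-- and it has the minimal size -/
theorem ss_card_eq [hp : Fact p.Prime] {d : ZMod p} {L : List (It A p)} (hd : d ≠ 0) (hok : Ok L)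
    (h : ∀ S : Finset (ZMod p), Sum.inr S ∈ L → Cv d S) (hwt : wt L + 2 ≤ p) :
    (ss L).card = 1 + wt L := by
  have hlow := ss_card hok
  have hup : (ss L).card ≤ 1 + wt L := by
    clear hlow
    induction L with
    | nil => simp
    | cons x L ih =>
      have h' : ∀ S : Finset (ZMod p), Sum.inr S ∈ L → Cv d S := fun S hS => h S (List.mem_cons_of_mem _ hS)
      rcases x with a | S
      · exact ih hok.of_cons h' hwt
      · rw [wt_inr] at hwt ⊢
        rw [ss_inr]
        have h1 := ih hok.of_cons h' (by omega)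
        have h2 := hok.head.card_pos
        have h3 := Cv.card_add_le hd (h S List.mem_cons_self) (ss_cv h') hok.head (ss_nonempty hok.of_cons)
          (by omega) (by omega)
        omega
  omega

end Pool.Agent.OEGZ
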