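import Pool.Agent.OEGZ.Step

/-! # OEGZ: sliding

* `slide_linear`: `PP τ r v (C.drop n)` for `n = |X0|` (the `ML`-prefix of `M0 ++ Y0` is `M0`), then `PP.step` for
  `n → n + 1` up to `n = |X1|` (windows at the front of `C.drop n` are not growing by `hng`).
* `slide_cyclic`: `PP τ r v (L.rotate n)` for one `n` (`M0 ++ R0 = L.rotate n`).  A growing window at the front would be
  `v`-good by `PP.front`, contradicting `hno`; so `NG`, and `PP.step`, `PP.append` give `PP τ r v (L.rotate (n + 1))`
  (if `L.rotate n = x :: K` then `L.rotate (n + 1) = K ++ [x]`, and `rl K ≥ r + 1`).  Hence `PP` for all rotations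
  (every rotation of `L` is `L.rotate (n + i)` for some `i`); this gives `AP`, and `Tm` by `PP.front` and `hno`. -/

set_option autoImplicit false

open scoped Classical Pointwise

namespace Pool.Agent.OEGZ

variable {A : Type} {p r : ℕ} {τ : List (It A p) → Finset (ZMod p)}

theorem slide_PP_nil {v : ZMod p} : PP τ r v ([] : List (It A p)) := by
  rintro M R h ⟨U, b, rfl, -⟩
  simp at h

theorem slide_linear [hp : Fact p.Prime] (hτ : Tau r τ) {v : ZMod p} {C X0 M0 Y0 X1 M1 Y1 : List (It A p)}
    (h0 : C = X0 ++ M0 ++ Y0) (h1 : C = X1 ++ M1 ++ Y1) (hM0 : ML r M0) (hM1 : ML r M1)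
    (hle : X0.length ≤ X1.length) (hok : Ok C) (hwt : wt C + 2 ≤ p)
    (hng : ∀ X W Y, C = X ++ W ++ Y → Win r W → ¬ Gr τ W) (h : GM τ v M0) : GM τ v M1 := by
  have key : ∀ n, X0.length ≤ n → PP τ r v (C.drop n) := by
    intro n hn
    induction n, hn using Nat.le_induction with
    | base =>
      have h2 : C.drop X0.length = M0 ++ Y0 := by
        rw [h0, List.append_assoc, List.drop_left]
      rw [h2]
      intro M R hMR hM
      obtain ⟨rfl, -⟩ := ML_unique hMR hM0 hM
      exact h
    | succ n hn ih =>
      rcases hcase : C.drop n with _ | ⟨x, K⟩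
      · have h3 : C.drop (n + 1) = [] := by
          rw [List.drop_eq_nil_iff] at hcase ⊢
          omega
        rw [h3]
        exact slide_PP_nil
      · have h3 : C.drop (n + 1) = K := by
          rw [← List.drop_drop, hcase]
          rfl
        rw [h3]
        have h4 : C = C.take n ++ (x :: K) := by
          rw [← hcase, List.take_append_drop]
        have h5 : Ok (x :: K) := by
          rw [h4] at hok
          exact hok.of_append_right
        have h6 : wt (x :: K) + 2 ≤ p := by
          rw [h4, wt_append] at hwt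
          omega
        refine PP.step hτ h5 h6 ?_ (hcase ▸ ih)
        intro W R hWR hW
        refine hng (C.take n) W R ?_ hW
        rw [List.append_assoc, ← hWR, ← h4]
  have h2 := key X1.length hle
  have h3 : C.drop X1.length = M1 ++ Y1 := by
    rw [h1, List.append_assoc, List.drop_left]
  rw [h3] at h2
  exact h2 M1 Y1 rfl hM1

theorem slide_cyclic [hp : Fact p.Prime] (hτ : Tau r τ) {v : ZMod p} {L M0 R0 : List (It A p)}
    (hrl : 2 * (r + 2) ≤ rl L + 1) (hok : Ok L) (hwt : wt L + 2 ≤ p)
    (h0 : L.IsRotated (M0 ++ R0)) (hM0 : ML r M0) (h : GM τ v M0)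
    (hno : ∀ W R, L.IsRotated (W ++ R) → Win r W → Gr τ W → ¬ Gd τ v W) :
    AP τ r v L ∧ Tm τ r L := by
  obtain ⟨n0, hn0⟩ := h0
  have key : ∀ n, n0 ≤ n → PP τ r v (L.rotate n) := by
    intro n hn
    induction n, hn using Nat.le_induction with
    | base =>
      rw [hn0]
      intro M R hMR hM
      obtain ⟨rfl, -⟩ := ML_unique hMR hM0 hM
      exact h
    | succ n hn ih =>
      have hper : L.Perm (L.rotate n) := (List.rotate_perm L n).symm
      rcases hcase : L.rotate n with _ | ⟨x, K⟩
      · have h3 := rl_perm hper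
        rw [hcase, rl_nil] at h3
        omega
      · have h3 : L.rotate (n + 1) = K ++ [x] := by
          rw [← List.rotate_rotate, hcase]
          simp
        rw [h3]
        rw [hcase] at hper ih
        have h4 : Ok (x :: K) := hok.perm hper
        have h5 : wt (x :: K) + 2 ≤ p := by
          rw [← wt_perm hper]
          exact hwt
        have h6 : rl L = rl (x :: K) := rl_perm hper
        have h7 : rl (x :: K) ≤ rl K + 1 := by
          rcases x with a | S <;> simp
        refine PP.append (by omega) (PP.step hτ h4 h5 ?_ ih) [x]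
        intro W R hWR hW hG
        refine hno W R ⟨n, ?_⟩ hW hG (ih.front hτ hWR hW)
        rw [hcase, hWR]
  have hlen : 0 < L.length := by
    rcases L with _ | ⟨x, K⟩
    · simp only [rl_nil] at hrl
      omega
    · simp
  have key2 : ∀ n, PP τ r v (L.rotate n) := by
    intro n
    have h1 : L.rotate (n + L.length * n0) = L.rotate n := by
      rw [← List.rotate_mod, Nat.add_mul_mod_self_left, List.rotate_mod]
    rw [← h1]
    refine key _ ?_
    nlinarith
  refine ⟨?_, ?_⟩
  · rintro M R ⟨n, hn⟩ hM
    exact key2 n M R hn hM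
  · rintro W R ⟨n, hn⟩ hW hG
    exact hno W R ⟨n, hn⟩ hW hG ((key2 n).front hτ hn hW)

end Pool.Agent.OEGZ
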