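import Pool.Agent.OEGZ.Propag
import Pool.Agent.OEGZ.CvCard
import Pool.Agent.OEGZ.Slide

/-! # OEGZ: a list without growing windows has a constant `v`

By `slide_cyclic` (with `hT`) it is enough to find `v` and one `ML`-part `M` of the cyclic list with `GM τ v M`; `|τ M| = 1 + wt M`
is `crit_all`.
Case 1: some `|τ M| = 1`.  Then `wt M = 0`, all set items in `M` are singletons, `ss M = {s}` (its cardinality is at most 1 since
`τ M` ... compute by induction), `τ M = {t}`, `v = t - s`.
Case 2: all `|τ M| ≥ 2`.  Then `wt M + 3 ≤ p` for all `M`: otherwise `wt M + 2 = p = wt L + 2`, `L ~r M ++ R`, `wt R = 0`,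
`rl R ≥ r + 2`, the `ML`-prefix `M'` of `R` has `wt M' = 0`, `|τ M'| = 1`.  `all_cv` gives `d`; for any `M`: `Cv d (τ M)`,
`Cv d (ss M)` (`ss_cv`), `|ss M| = 1 + wt M` (`ss_card_eq`), so `Cv.translate` gives `v`. -/

set_option autoImplicit false

open scoped Classical Pointwise

namespace Pool.Agent.OEGZ

variable {A : Type} {p r : ℕ} {τ : List (It A p) → Finset (ZMod p)}

theorem basel_ss_card {M : List (It A p)} (h : wt M = 0) : (ss M).card ≤ 1 := by
  induction M with
  | nil => simp
  | cons x M ih =>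
    rcases x with a | S
    · exact ih h
    · rw [wt_inr] at h
      rw [ss_inr]
      have h1 := ih (by omega)
      have h2 : S.card ≤ 1 := by omega
      calc (S + ss M).card ≤ S.card * (ss M).card := Finset.card_add_le
        _ ≤ 1 * 1 := Nat.mul_le_mul h2 h1
        _ = 1 := by norm_num

/-- one part of type `ML` satisfies `GM` -/
theorem basel_start [hp : Fact p.Prime] (hτ : Tau r τ) {L : List (It A p)}
    (hrl : 2 * (r + 2) ≤ rl L + 1) (hok : Ok L) (hwt : wt L + 2 ≤ p) (hT : Tm τ r L) :
    ∃ v M R, L.IsRotated (M ++ R) ∧ ML r M ∧ GM τ v M := by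
  have hcrit := crit_all hτ hrl hok hwt hT
  by_cases h2 : ∀ M R, L.IsRotated (M ++ R) → ML r M → 2 ≤ (τ M).card
  · have h3 : ∀ M R, L.IsRotated (M ++ R) → ML r M → wt M + 3 ≤ p := by
      intro M R hL hM
      by_contra hcon
      have e1 : wt L = wt M + wt R := by rw [wt_perm hL.perm, wt_append]
      have e2 : rl L = rl M + rl R := by rw [rl_perm hL.perm, rl_append]
      have e3 := hM.rl_eq
      obtain ⟨M', R', hR, hM'⟩ := exists_ML (r := r) (L := R) (by omega)
      have e4 : wt R = wt M' + wt R' := by rw [hR, wt_append]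
      have hL' : L.IsRotated (M' ++ (R' ++ M)) := by
        refine hL.trans ?_
        rw [← List.append_assoc, ← hR]
        exact List.isRotated_append
      have e5 := h2 M' _ hL' hM'
      have e6 := hcrit M' _ hL' hM'
      omega
    obtain ⟨d, hd, h4, h5⟩ := all_cv hτ hrl hok hwt hT h2 h3
    obtain ⟨M, R, hMR, hM⟩ := exists_ML (r := r) (L := L) (by omega)
    have hL : L.IsRotated (M ++ R) := by rw [← hMR]
    have hwM : wt M + 2 ≤ p := by
      have : wt L = wt M + wt R := by rw [wt_perm hL.perm, wt_append]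
      omega
    have hokM : Ok M := (hok.perm hL.perm).of_append_left
    have hsM : ∀ S : Finset (ZMod p), Sum.inr S ∈ M → Cv d S := fun S hS =>
      h5 S (by rw [hMR]; exact List.mem_append_left _ hS)
    have h6 := ss_card_eq hd hokM hsM hwM
    have h7 := hcrit M R hL hM
    obtain ⟨v, hv⟩ := Cv.translate hd (h4 M R hL hM) (ss_cv hsM)
      (hτ.nonempty hokM (by rw [hM.rl_eq])) (by rw [h6, h7]) (by omega)
    exact ⟨v, M, R, hL, hM, hv, h7⟩
  · push Not at h2
    obtain ⟨M, R, hL, hM, hlt⟩ := h2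
    have h7 := hcrit M R hL hM
    have hokM : Ok M := (hok.perm hL.perm).of_append_left
    have h8 : (τ M).card = 1 := by omega
    have h9 : (ss M).card = 1 := by
      have e1 := basel_ss_card (M := M) (by omega)
      have e2 := (ss_nonempty hokM).card_pos
      omega
    obtain ⟨t, ht⟩ := Finset.card_eq_one.1 h8
    obtain ⟨s, hs⟩ := Finset.card_eq_one.1 h9
    refine ⟨t - s, M, R, hL, hM, ?_, h7⟩
    intro x hx
    rw [hs, Finset.mem_singleton] at hx
    rw [ht, Finset.mem_singleton, hx]
    ring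

theorem base_lemma [hp : Fact p.Prime] (hτ : Tau r τ) {L : List (It A p)}
    (hrl : 2 * (r + 2) ≤ rl L + 1) (hok : Ok L) (hwt : wt L + 2 ≤ p) (hT : Tm τ r L) :
    ∃ v, AP τ r v L := by
  obtain ⟨v, M, R, hL, hM, hG⟩ := basel_start hτ hrl hok hwt hT
  exact ⟨v, (slide_cyclic hτ hrl hok hwt hL hM hG (fun W R' h1 h2 h3 => absurd h3 (hT W R' h1 h2))).1⟩

end Pool.Agent.OEGZ
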