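import Pool.Agent.OEGZ.Defs

/-! # OEGZ: basic lemmas -/

set_option autoImplicit false

open scoped Classical Pointwise

namespace Pool.Agent.OEGZ

variable {A : Type} {p : ℕ}

@[simp] theorem rl_nil : rl ([] : List (It A p)) = 0 := rfl
@[simp] theorem rl_inl (a : A) (L : List (It A p)) : rl (Sum.inl a :: L) = rl L + 1 := rfl
@[simp] theorem rl_inr (S : Finset (ZMod p)) (L : List (It A p)) : rl (Sum.inr S :: L) = rl L := rfl
@[simp] theorem wt_nil : wt ([] : List (It A p)) = 0 := rfl
@[simp] theorem wt_inl (a : A) (L : List (It A p)) : wt (Sum.inl a :: L) = wt L := rfl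
@[simp] theorem wt_inr (S : Finset (ZMod p)) (L : List (It A p)) :
    wt (Sum.inr S :: L) = (S.card - 1) + wt L := rfl
@[simp] theorem ss_nil : ss ([] : List (It A p)) = {0} := rfl
@[simp] theorem ss_inl (a : A) (L : List (It A p)) : ss (Sum.inl a :: L) = ss L := rfl
@[simp] theorem ss_inr (S : Finset (ZMod p)) (L : List (It A p)) : ss (Sum.inr S :: L) = S + ss L := rfl

@[simp] theorem rl_append (L L' : List (It A p)) : rl (L ++ L') = rl L + rl L' := by
  induction L with
  | nil => simp
  | cons x L ih => rcases x with a | S <;> simp [ih] <;> omega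

@[simp] theorem wt_append (L L' : List (It A p)) : wt (L ++ L') = wt L + wt L' := by
  induction L with
  | nil => simp
  | cons x L ih => rcases x with a | S <;> simp [ih] <;> omega

@[simp] theorem ss_append (L L' : List (It A p)) : ss (L ++ L') = ss L + ss L' := by
  induction L with
  | nil =>
    simp only [List.nil_append, ss_nil]
    ext x
    simp [Finset.mem_add]
  | cons x L ih => rcases x with a | S <;> simp [ih, add_assoc]

theorem rl_perm {L L' : List (It A p)} (h : L.Perm L') : rl L = rl L' := by
  induction h with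
  | nil => rfl
  | cons x _ ih => rcases x with a | S <;> simp [ih]
  | swap x y l => rcases x with a | S <;> rcases y with b | T <;> simp
  | trans _ _ ih1 ih2 => exact ih1.trans ih2

theorem wt_perm {L L' : List (It A p)} (h : L.Perm L') : wt L = wt L' := by
  induction h with
  | nil => rfl
  | cons x _ ih => rcases x with a | S <;> simp [ih]
  | swap x y l =>
    rcases x with a | S <;> rcases y with b | T <;> simp
    omega
  | trans _ _ ih1 ih2 => exact ih1.trans ih2

theorem ss_perm {L L' : List (It A p)} (h : L.Perm L') : ss L = ss L' := by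
  induction h with
  | nil => rfl
  | cons x _ ih => rcases x with a | S <;> simp [ih]
  | swap x y l =>
    rcases x with a | S <;> rcases y with b | T <;> simp
    rw [← add_assoc, ← add_assoc, add_comm S T]
  | trans _ _ ih1 ih2 => exact ih1.trans ih2

theorem Ok.perm {L L' : List (It A p)} (hL : Ok L) (h : L.Perm L') : Ok L' :=
  fun S hS => hL S (h.mem_iff.2 hS)

theorem Ok.of_append_left {L L' : List (It A p)} (h : Ok (L ++ L')) : Ok L :=
  fun S hS => h S (List.mem_append_left _ hS)

theorem Ok.of_append_right {L L' : List (It A p)} (h : Ok (L ++ L')) : Ok L' :=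
  fun S hS => h S (List.mem_append_right _ hS)

theorem Ok.append {L L' : List (It A p)} (h : Ok L) (h' : Ok L') : Ok (L ++ L') := by
  intro S hS
  rcases List.mem_append.1 hS with hS | hS
  · exact h S hS
  · exact h' S hS

theorem Ok.of_cons {x : It A p} {L : List (It A p)} (h : Ok (x :: L)) : Ok L :=
  fun S hS => h S (List.mem_cons_of_mem _ hS)

theorem Ok.head {S : Finset (ZMod p)} {L : List (It A p)} (h : Ok (Sum.inr S :: L)) : S.Nonempty :=
  h S List.mem_cons_self

theorem Ok.cons_inl {a : A} {L : List (It A p)} (h : Ok L) : Ok (Sum.inl a :: L) := by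
  intro S hS
  rcases List.mem_cons.1 hS with hS | hS
  · cases hS
  · exact h S hS

theorem Ok.cons_inr {S : Finset (ZMod p)} {L : List (It A p)} (h : Ok L) (hS : S.Nonempty) :
    Ok (Sum.inr S :: L) := by
  intro T hT
  rcases List.mem_cons.1 hT with hT | hT
  · cases hT
    exact hS
  · exact h T hT

theorem ss_nonempty {L : List (It A p)} (h : Ok L) : (ss L).Nonempty := by
  induction L with
  | nil => exact ⟨0, by simp⟩
  | cons x L ih =>
    rcases x with a | S
    · exact ih h.of_cons
    · exact h.head.add (ih h.of_cons)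

theorem cd [hp : Fact p.Prime] {S T : Finset (ZMod p)} (hS : S.Nonempty) (hT : T.Nonempty) :
    min p (S.card + T.card - 1) ≤ (S + T).card :=
  ZMod.cauchy_davenport hp.out hS hT

theorem ss_card [hp : Fact p.Prime] {L : List (It A p)} (h : Ok L) : min p (1 + wt L) ≤ (ss L).card := by
  induction L with
  | nil => simp
  | cons x L ih =>
    rcases x with a | S
    · exact ih h.of_cons
    · have h1 := ih h.of_cons
      have h2 := cd h.head (ss_nonempty h.of_cons)
      have h3 := h.head.card_pos
      simp only [wt_inr, ss_inr]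
      have h4 := (ss_nonempty h.of_cons).card_pos
      omega

/-- cancellation -/
theorem cancel [hp : Fact p.Prime] {S T B C : Finset (ZMod p)} (hS : S.Nonempty) (hT : T.Nonempty)
    (hC : S + T ⊆ C) (hB : S + B ⊆ C) (hcard : C.card + 1 ≤ S.card + T.card) (hlt : C.card < p) :
    B ⊆ T := by
  have h1 : S + (T ∪ B) ⊆ C := by
    rw [Finset.add_union]
    exact Finset.union_subset hC hB
  have h2 := cd hS (hT.mono (Finset.subset_union_left (s₂ := B)))
  have h3 := Finset.card_le_card h1
  have h4 : (T ∪ B).card ≤ T.card := by omega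
  have h5 : T = T ∪ B := Finset.eq_of_subset_of_card_le Finset.subset_union_left h4
  intro x hx
  rw [h5]
  exact Finset.mem_union_right _ hx

theorem ML.rl_eq {r : ℕ} {M : List (It A p)} (h : ML r M) : rl M = r + 1 := by
  obtain ⟨U, b, rfl, hU⟩ := h
  simp [hU]

theorem Win.rl_eq {r : ℕ} {W : List (It A p)} (h : Win r W) : rl W = r + 2 := by
  obtain ⟨a, U, b, rfl, hU⟩ := h
  simp [hU]

/-- existence of the prefix of type `ML` -/
theorem exists_ML {r : ℕ} {L : List (It A p)} (h : r + 1 ≤ rl L) :
    ∃ M R, L = M ++ R ∧ ML r M := by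
  induction L generalizing r with
  | nil => simp at h
  | cons x L ih =>
    rcases x with a | S
    · rcases r with _ | r
      · exact ⟨[Sum.inl a], L, rfl, [], a, rfl, rfl⟩
      · obtain ⟨M, R, rfl, U, b, rfl, hU⟩ := ih (r := r) (by simpa using h)
        exact ⟨Sum.inl a :: (U ++ [Sum.inl b]), R, by simp, Sum.inl a :: U, b, by simp, by simp [hU]⟩
    · obtain ⟨M, R, rfl, U, b, rfl, hU⟩ := ih (r := r) (by simpa using h)
      exact ⟨Sum.inr S :: (U ++ [Sum.inl b]), R, by simp, Sum.inr S :: U, b, by simp, by simp [hU]⟩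

/-- uniqueness of the prefix of type `ML` -/
theorem ML_unique {r : ℕ} {M M' R R' : List (It A p)} (h : M ++ R = M' ++ R') (hM : ML r M)
    (hM' : ML r M') : M = M' ∧ R = R' := by
  have key : ∀ {M M' R R' : List (It A p)}, M ++ R = M' ++ R' → ML r M → ML r M' →
      M.length ≤ M'.length → M = M' ∧ R = R' := by
    intro M M' R R' h hM hM' hle
    obtain ⟨Z, rfl⟩ : M <+: M' := by
      have h1 : M <+: M' ++ R' := ⟨R, h⟩
      exact List.prefix_of_prefix_length_le h1 (List.prefix_append _ _) hle
    have h1 := hM.rl_eq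
    have h2 := hM'.rl_eq
    rw [rl_append] at h2
    have h3 : rl Z = 0 := by omega
    have h4 : Z = [] := by
      obtain ⟨U, b, hU, -⟩ := hM'
      rcases List.eq_nil_or_concat Z with h5 | ⟨Z', x, h5⟩
      · exact h5
      · rw [h5, List.concat_eq_append, ← List.append_assoc] at hU
        have h6 := List.append_inj' hU rfl
        have h7 : x = Sum.inl b := by simpa using h6.2
        rw [h5, h7, List.concat_eq_append, rl_append] at h3
        simp at h3
    subst h4
    simp at h
    exact ⟨by simp, h⟩
  rcases le_total M.length M'.length with hle | hle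
  · exact key h hM hM' hle
  · obtain ⟨h1, h2⟩ := key h.symm hM' hM hle
    exact ⟨h1.symm, h2.symm⟩

theorem Win_unique {r : ℕ} {M M' R R' : List (It A p)} (h : M ++ R = M' ++ R') (hM : Win r M)
    (hM' : Win r M') : M = M' ∧ R = R' := by
  obtain ⟨a, U, b, rfl, hU⟩ := hM
  obtain ⟨a', U', b', rfl, hU'⟩ := hM'
  have h1 : ML (r + 1) (Sum.inl a :: (U ++ [Sum.inl b]) : List (It A p)) :=
    ⟨Sum.inl a :: U, b, by simp, by simp [hU]⟩
  have h2 : ML (r + 1) (Sum.inl a' :: (U' ++ [Sum.inl b']) : List (It A p)) :=
    ⟨Sum.inl a' :: U', b', by simp, by simp [hU']⟩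
  exact ML_unique h h1 h2

/-- the window at the front of a list that starts with a letter -/
theorem exists_Win {r : ℕ} {a : A} {L : List (It A p)} (h : r + 1 ≤ rl L) :
    ∃ W R, (Sum.inl a :: L : List (It A p)) = W ++ R ∧ Win r W := by
  obtain ⟨M, R, rfl, U, b, rfl, hU⟩ := exists_ML h
  exact ⟨Sum.inl a :: (U ++ [Sum.inl b]), R, by simp, a, U, b, rfl, hU⟩

variable {r : ℕ} {τ : List (It A p) → Finset (ZMod p)}

/-- unused letters and used sets at both ends -/
theorem Tau.ext (hτ : Tau r τ) (X M Y : List (It A p)) : ss X + τ M + ss Y ⊆ τ (X ++ M ++ Y) := by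
  have h1 : ∀ Y : List (It A p), ∀ M, τ M + ss Y ⊆ τ (M ++ Y) := by
    intro Y
    induction Y with
    | nil =>
      intro M x hx
      simpa [Finset.mem_add] using hx
    | cons y Y ih =>
      intro M
      rcases y with a | S
      · have h2 := ih (M ++ [Sum.inl a])
        simp only [List.append_assoc, List.cons_append, List.nil_append] at h2
        exact (Finset.add_subset_add_right (hτ.inlR a M)).trans h2
      · have h2 := ih (M ++ [Sum.inr S])
        simp only [List.append_assoc, List.cons_append, List.nil_append] at h2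
        rw [ss_inr, ← add_assoc]
        exact (Finset.add_subset_add_right (hτ.inrR S M)).trans h2
  have h2 : ∀ X : List (It A p), ∀ M, ss X + τ M ⊆ τ (X ++ M) := by
    intro X
    induction X with
    | nil =>
      intro M x hx
      simpa [Finset.mem_add] using hx
    | cons y X ih =>
      intro M
      rcases y with a | S
      · exact (ih M).trans (hτ.inlL a _)
      · rw [ss_inr, add_assoc]
        exact (Finset.add_subset_add_left (ih M)).trans (hτ.inrL S _)
  exact (Finset.add_subset_add_right (h2 X M)).trans (h1 Y _)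

theorem Tau.extL (hτ : Tau r τ) (X M : List (It A p)) : ss X + τ M ⊆ τ (X ++ M) := by
  have h := hτ.ext X M []
  simp only [ss_nil, List.append_nil] at h
  intro x hx
  refine h ?_
  rw [Finset.mem_add]
  exact ⟨x, hx, 0, by simp, by simp⟩

theorem Tau.extR (hτ : Tau r τ) (M Y : List (It A p)) : τ M + ss Y ⊆ τ (M ++ Y) := by
  have h := hτ.ext [] M Y
  simp only [ss_nil, List.nil_append] at h
  intro x hx
  refine h ?_
  rw [Finset.mem_add] at hx ⊢
  obtain ⟨y, hy, z, hz, rfl⟩ := hx
  exact ⟨y, Finset.mem_add.2 ⟨0, by simp, y, hy, by simp⟩, z, hz, rfl⟩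

theorem Gd.ext (hτ : Tau r τ) {v : ZMod p} {M : List (It A p)} (h : Gd τ v M) (X Y : List (It A p)) :
    Gd τ v (X ++ M ++ Y) := by
  intro x hx
  rw [ss_append, ss_append, Finset.mem_add] at hx
  obtain ⟨y, hy, z, hz, rfl⟩ := hx
  rw [Finset.mem_add] at hy
  obtain ⟨x, hx, y, hy, rfl⟩ := hy
  refine hτ.ext X M Y ?_
  rw [Finset.mem_add]
  refine ⟨x + (v + y), Finset.mem_add.2 ⟨x, hx, v + y, h y hy, rfl⟩, z, hz, by ring⟩

theorem Tau.nonempty (hτ : Tau r τ) [hp : Fact p.Prime] {L : List (It A p)} (hL : Ok L)
    (h : r + 1 ≤ rl L) : (τ L).Nonempty := by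
  rw [← Finset.card_pos]
  have h1 := hτ.card L hL h
  have h2 := hp.out.pos
  omega

/-- decomposition of a window at the end of its first `r + 1` letters -/
theorem Win.split {W : List (It A p)} (h : Win r W) :
    ∃ (M Z : List (It A p)) (b : A), W = M ++ (Z ++ [Sum.inl b]) ∧ ML r M ∧ rl Z = 0 := by
  obtain ⟨a, U, b, rfl, hU⟩ := h
  obtain ⟨M, Z, h1, h2⟩ := exists_ML (r := r) (L := (Sum.inl a :: U : List (It A p))) (by simp [hU])
  refine ⟨M, Z, b, ?_, h2, ?_⟩
  · rw [← List.cons_append, h1, List.append_assoc]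
  · have h3 : rl (Sum.inl a :: U : List (It A p)) = rl (M ++ Z) := by rw [h1]
    rw [rl_append, h2.rl_eq] at h3
    simp at h3
    omega

end Pool.Agent.OEGZ
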