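import Pool.Agent.OEGZ.Basic

/-! # OEGZ: the product sets `FP` in a group

`FP_append` by induction on the first list.  `conc_snd.rot`: from `FP_append`, `y z = 1 ↔ z y = 1` (for a rotation `L = X ++ Y`, `L' = Y ++ X`).
`conc_snd.red`: `(1, k m) = (ι s * y, ..)` with `s ∈ tv ι m W`, i.e. `(ι s, m) ∈ FP ι W`.  `FP_letters`: by induction on `l`. -/

set_option autoImplicit false

open scoped Classical Pointwise

namespace Pool.Agent.OEGZ

variable {G : Type} [Group G] {p : ℕ}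

theorem FP_append (ι : ZMod p → G) (L L' : List (It G p)) (x : G × ℕ) :
    x ∈ FP ι (L ++ L') ↔ ∃ y ∈ FP ι L, ∃ z ∈ FP ι L', x = (y.1 * z.1, y.2 + z.2) := by
  induction L generalizing x with
  | nil =>
    constructor
    · intro h
      exact ⟨(1, 0), rfl, x, h, by simp⟩
    · rintro ⟨y, hy, z, hz, rfl⟩
      have hy' : y = (1, 0) := hy
      subst hy'
      simpa using hz
  | cons w L ih =>
    rcases w with g | S
    · constructor
      · intro h
        have h' : x ∈ FP ι (L ++ L') ∨ ∃ y ∈ FP ι (L ++ L'), x = (g * y.1, y.2 + 1) := h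
        rcases h' with h' | ⟨y, hy, rfl⟩
        · obtain ⟨y, hy, z, hz, hx⟩ := (ih x).1 h'
          exact ⟨y, Or.inl hy, z, hz, hx⟩
        · obtain ⟨u, hu, z, hz, rfl⟩ := (ih y).1 hy
          refine ⟨(g * u.1, u.2 + 1), Or.inr ⟨u, hu, rfl⟩, z, hz, ?_⟩
          ext
          · simp [mul_assoc]
          · simp only
            omega
      · rintro ⟨y, hy, z, hz, rfl⟩
        have hy' : y ∈ FP ι L ∨ ∃ u ∈ FP ι L, y = (g * u.1, u.2 + 1) := hy
        rcases hy' with hy' | ⟨u, hu, rfl⟩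
        · exact Or.inl ((ih _).2 ⟨y, hy', z, hz, rfl⟩)
        · refine Or.inr ⟨(u.1 * z.1, u.2 + z.2), (ih _).2 ⟨u, hu, z, hz, rfl⟩, ?_⟩
          ext
          · simp [mul_assoc]
          · simp only
            omega
    · constructor
      · intro h
        have h' : ∃ s ∈ S, ∃ y ∈ FP ι (L ++ L'), x = (ι s * y.1, y.2) := h
        obtain ⟨s, hs, y, hy, rfl⟩ := h'
        obtain ⟨u, hu, z, hz, rfl⟩ := (ih y).1 hy
        exact ⟨(ι s * u.1, u.2), ⟨s, hs, u, hu, rfl⟩, z, hz, by simp [mul_assoc]⟩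
      · rintro ⟨y, hy, z, hz, rfl⟩
        have hy' : ∃ s ∈ S, ∃ u ∈ FP ι L, y = (ι s * u.1, u.2) := hy
        obtain ⟨s, hs, u, hu, rfl⟩ := hy'
        exact ⟨s, hs, (u.1 * z.1, u.2 + z.2), (ih _).2 ⟨u, hu, z, hz, rfl⟩, by simp [mul_assoc]⟩

private theorem conc_mem_tv [NeZero p] (ι : ZMod p → G) (m : ℕ) (L : List (It G p)) (z : ZMod p) :
    z ∈ tv ι m L ↔ (ι z, m) ∈ FP ι L := by
  unfold tv
  rw [Finset.mem_filter]
  exact ⟨fun h => h.2, fun h => ⟨Finset.mem_univ _, h⟩⟩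

private theorem conc_zero {ι : ZMod p → G} (hι : Emb ι) : ι 0 = 1 := by
  have h := hι.map_add 0 0
  rw [add_zero] at h
  exact left_eq_mul.1 h

theorem conc_snd [NeZero p] {ι : ZMod p → G} (hι : Emb ι) (m r : ℕ) :
    Snd r (tv ι m) (Zv ι m) := by
  refine ⟨?_, ?_, ?_⟩
  · rintro k L L' ⟨n, rfl⟩ h
    unfold Zv at h ⊢
    rw [List.rotate_eq_drop_append_take_mod]
    rw [← List.take_append_drop (n % L.length) L] at h
    obtain ⟨y, hy, z, hz, hyz⟩ := (FP_append ι _ _ _).1 h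
    refine (FP_append ι _ _ _).2 ⟨z, hz, y, hy, ?_⟩
    rw [Prod.mk.injEq] at hyz ⊢
    refine ⟨?_, by omega⟩
    have h1 : y.1 = z.1⁻¹ := eq_inv_of_mul_eq_one_left hyz.1.symm
    rw [h1, mul_inv_cancel]
  · intro k W R _ h
    unfold Zv at h ⊢
    have h' : ∃ s ∈ tv ι m W, ∃ y ∈ FP ι R, ((1 : G), k * m) = (ι s * y.1, y.2) := h
    obtain ⟨s, hs, y, hy, hsy⟩ := h'
    rw [conc_mem_tv] at hs
    refine (FP_append ι _ _ _).2 ⟨(ι s, m), hs, y, hy, ?_⟩
    rw [Prod.mk.injEq] at hsy ⊢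
    refine ⟨hsy.1, ?_⟩
    show (k + 1) * m = m + y.2
    rw [← hsy.2]
    ring
  · intro L _ h
    rw [conc_mem_tv, conc_zero hι] at h
    unfold Zv
    rw [one_mul]
    exact h

theorem conc_inl [NeZero p] {ι : ZMod p → G} (hι : Emb ι) (m : ℕ) (a : G) (L : List (It G p)) :
    tv ι m L ⊆ tv ι m (Sum.inl a :: L) ∧ tv ι m L ⊆ tv ι m (L ++ [Sum.inl a]) := by
  constructor
  · intro z hz
    rw [conc_mem_tv] at hz ⊢
    exact Or.inl hz
  · intro z hz
    rw [conc_mem_tv] at hz ⊢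
    have h1 : ((1 : G), 0) ∈ FP ι ([Sum.inl a] : List (It G p)) := Or.inl rfl
    exact (FP_append ι _ _ _).2 ⟨_, hz, _, h1, by simp⟩

theorem conc_inr [NeZero p] {ι : ZMod p → G} (hι : Emb ι) (m : ℕ) (S : Finset (ZMod p))
    (L : List (It G p)) :
    S + tv ι m L ⊆ tv ι m (Sum.inr S :: L) ∧ tv ι m L + S ⊆ tv ι m (L ++ [Sum.inr S]) := by
  constructor
  · intro z hz
    rw [Finset.mem_add] at hz
    obtain ⟨s, hs, t, ht, rfl⟩ := hz
    rw [conc_mem_tv] at ht ⊢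
    exact ⟨s, hs, (ι t, m), ht, by rw [hι.map_add]⟩
  · intro z hz
    rw [Finset.mem_add] at hz
    obtain ⟨t, ht, s, hs, rfl⟩ := hz
    rw [conc_mem_tv] at ht ⊢
    have h1 : (ι s, 0) ∈ FP ι ([Sum.inr S] : List (It G p)) := ⟨s, hs, (1, 0), rfl, by simp⟩
    exact (FP_append ι _ _ _).2 ⟨_, ht, _, h1, by simp [hι.map_add]⟩

/-- lists of letters: totals are products of sublists -/
theorem FP_letters (ι : ZMod p → G) (l : List G) (x : G × ℕ)
    (hx : x ∈ FP ι (l.map Sum.inl : List (It G p))) :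
    ∃ l' : List G, l'.Sublist l ∧ l'.length = x.2 ∧ l'.prod = x.1 := by
  induction l generalizing x with
  | nil =>
    have hx' : x = (1, 0) := hx
    subst hx'
    exact ⟨[], List.Sublist.slnil, rfl, rfl⟩
  | cons g l ih =>
    have hx' : x ∈ FP ι (l.map Sum.inl : List (It G p)) ∨
        ∃ y ∈ FP ι (l.map Sum.inl : List (It G p)), x = (g * y.1, y.2 + 1) := hx
    rcases hx' with hx' | ⟨y, hy, rfl⟩
    · obtain ⟨l', h1, h2, h3⟩ := ih x hx'
      exact ⟨l', h1.trans (List.sublist_cons_self g l), h2, h3⟩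
    · obtain ⟨l', h1, h2, h3⟩ := ih y hy
      exact ⟨g :: l', h1.cons_cons g, by simp [h2], by simp [h3]⟩

end Pool.Agent.OEGZ
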