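import Pool.Agent.OEGZ.Basic

/-! # OEGZ: sizes of the product sets (Cauchy-Davenport with twists)

`lefts L` is the list of letters of `L`.
* `FP_sub`: induction on `L`.  `inr S :: L`: `ι s * (l'.prod * ι b) = l'.prod * ι (ρ s + b)` with `ρ` given by conjugation by `l'.prod⁻¹`
  (`Emb.nor`, injective), so take `ρ(S) + B`; `cd`.  `inl g :: L`: either `l'` is a sublist of the letters of `L` (same `B`, `g` not chosen) or
  `l' = g :: l''` (same `B`, `g` chosen).
* `conc_card`: choose the first `r + 1 = 2 m - 1` letters, the hypothesis `hgood` gives `l'` with product `ι a`; `a + B ⊆ tv ι m L`. -/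

set_option autoImplicit false

open scoped Classical Pointwise

namespace Pool.Agent.OEGZ

variable {G : Type} [Group G] {p : ℕ}

/-- the letters of a list -/
def lefts {A : Type} {p : ℕ} : List (It A p) → List A
  | [] => []
  | Sum.inl a :: L => a :: lefts L
  | Sum.inr _ :: L => lefts L

theorem lefts_length {A : Type} {p : ℕ} (L : List (It A p)) : (lefts L).length = rl L := by
  induction L with
  | nil => rfl
  | cons x L ih => rcases x with a | S <;> simp [lefts, ih]

theorem FP_sub [hp : Fact p.Prime] {ι : ZMod p → G} (hι : Emb ι) (L : List (It G p)) (hok : Ok L)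
    (l' : List G) (hl : l'.Sublist (lefts L)) :
    ∃ B : Finset (ZMod p), min p (1 + wt L) ≤ B.card ∧
      ∀ b ∈ B, (l'.prod * ι b, l'.length) ∈ FP ι L := by
  have hι0 : ι 0 = 1 := by
    have h := hι.map_add 0 0
    rw [add_zero] at h
    exact (mul_eq_left.1 h.symm)
  induction L generalizing l' with
  | nil =>
    refine ⟨{0}, ?_, ?_⟩
    · simp
    · intro b hb
      rw [Finset.mem_singleton] at hb
      have h1 : l' = [] := List.sublist_nil.1 hl
      subst h1
      subst hb
      show ([].prod * ι 0, [].length) ∈ ({(1, 0)} : Set (G × ℕ))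
      rw [hι0]
      simp
  | cons x L ih =>
    rcases x with g | S
    · have hl' : l'.Sublist (g :: lefts L) := hl
      rcases List.sublist_cons_iff.1 hl' with h1 | ⟨l'', rfl, h1⟩
      · obtain ⟨B, hB, hB'⟩ := ih hok.of_cons l' h1
        exact ⟨B, hB, fun b hb => Or.inl (hB' b hb)⟩
      · obtain ⟨B, hB, hB'⟩ := ih hok.of_cons l'' h1
        refine ⟨B, hB, fun b hb => Or.inr ⟨_, hB' b hb, ?_⟩⟩
        simp [mul_assoc]
    · have hl' : l'.Sublist (lefts L) := hl
      obtain ⟨B, hB, hB'⟩ := ih hok.of_cons l' hl'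
      -- the twist
      have hρ : ∀ s : ZMod p, ∃ t : ZMod p, l'.prod⁻¹ * ι s * l'.prod⁻¹⁻¹ = ι t := fun s => hι.nor _ s
      choose ρ hρ using hρ
      have hρinj : Function.Injective ρ := by
        intro s t hst
        have h1 := hρ s
        rw [hst, ← hρ t] at h1
        exact hι.inj (by simpa using h1)
      have hBne : B.Nonempty := by
        rw [← Finset.card_pos]
        have := hp.out.pos
        omega
      refine ⟨S.image ρ + B, ?_, ?_⟩
      · have h1 := cd (hok.head.image ρ) hBne
        rw [Finset.card_image_of_injective _ hρinj] at h1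
        have h2 := hok.head.card_pos
        have h3 := hBne.card_pos
        rw [wt_inr]
        omega
      · intro c hc
        rw [Finset.mem_add] at hc
        obtain ⟨t, ht, b, hb, rfl⟩ := hc
        rw [Finset.mem_image] at ht
        obtain ⟨s, hs, rfl⟩ := ht
        refine ⟨s, hs, _, hB' b hb, ?_⟩
        rw [hι.map_add, ← hρ s]
        simp [mul_assoc]

theorem conc_card [hp : Fact p.Prime] {ι : ZMod p → G} (hι : Emb ι) {m r : ℕ} (hm : r + 2 = 2 * m)
    (hgood : ∀ l : List G, l.length + 1 = 2 * m → ∃ l' : List G, l'.Sublist l ∧ l'.length = m ∧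
      ∃ a, l'.prod = ι a)
    (L : List (It G p)) (hok : Ok L) (hrl : r + 1 ≤ rl L) :
    min p (1 + wt L) ≤ (tv ι m L).card := by
  obtain ⟨l', hl', hlen, a, ha⟩ := hgood ((lefts L).take (r + 1)) (by
    rw [List.length_take, lefts_length, min_eq_left hrl]
    omega)
  obtain ⟨B, hB, hB'⟩ := FP_sub hι L hok l' (hl'.trans (List.take_sublist _ _))
  refine hB.trans ?_
  rw [← Finset.card_image_of_injective B (add_right_injective a)]
  refine Finset.card_le_card ?_
  intro z hz
  rw [Finset.mem_image] at hz
  obtain ⟨b, hb, rfl⟩ := hz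
  have h1 := hB' b hb
  rw [ha, ← hι.map_add, hlen] at h1
  simp only [tv, Finset.mem_filter, Finset.mem_univ, true_and]
  exact h1

end Pool.Agent.OEGZ
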