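import Pool.Agent.OEGZ.Cyc

/-! # OEGZ: nilpotent groups and groups with cyclic Sylow subgroups -/

set_option autoImplicit false

open scoped Classical Pointwise

namespace Pool.Agent.OEGZ

theorem OE_nilpotent {G : Type} [Group G] [Finite G] (hG : Group.IsNilpotent G) : OE G := by
  obtain ⟨n, hn⟩ : ∃ n, Nat.card G = n := ⟨_, rfl⟩
  induction n using Nat.strong_induction_on generalizing G with
  | _ n ih =>
    by_cases hs : Subsingleton G
    · exact OE_subsingleton
    · have hnt : Nontrivial G := not_subsingleton_iff_nontrivial.1 hs
      have hc : Nontrivial (Subgroup.center G) := by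
        exact (Subgroup.nontrivial_iff_ne_bot _).2 (Group.IsNilpotent.center_ne_bot (G := G))
      obtain ⟨q, hq, hdvd⟩ := Nat.exists_prime_and_dvd (n := Nat.card (Subgroup.center G))
        (Finite.one_lt_card.ne')
      have := Fact.mk hq
      obtain ⟨x, hx⟩ := exists_prime_orderOf_dvd_card' q hdvd
      let P : Subgroup G := Subgroup.zpowers (x : G)
      have hP : P.Normal := by
        refine ⟨fun y hy g => ?_⟩
        have h1 : y ∈ Subgroup.center G := by
          refine Subgroup.zpowers_le.2 x.2 hy
        have h2 : g * y * g⁻¹ = y := by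
          rw [(Subgroup.mem_center_iff.1 h1 g)]
          group
        rwa [h2]
      have hcard : Nat.card P = q := by
        rw [Nat.card_zpowers, ← hx]
        exact Subgroup.orderOf_coe x
      refine OE_ext P (hcard ▸ hq) (ih (Nat.card (G ⧸ P)) ?_ ?_ rfl)
      · rw [← hn]
        have h3 := Subgroup.card_eq_card_quotient_mul_card_subgroup P
        rw [hcard] at h3
        have h4 : 0 < Nat.card (G ⧸ P) := Nat.card_pos
        have h5 := hq.two_le
        nlinarith
      · infer_instance

theorem OE_cyc {G : Type} [Group G] [Finite G] (hG : IsCyclic G) : OE G := by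
  refine OE_cyclic (⊤ : Subgroup G) ?_ ?_
  · infer_instance
  · have : Subsingleton (G ⧸ (⊤ : Subgroup G)) := QuotientGroup.subsingleton_quotient_top
    exact OE_subsingleton

theorem OE_zgroup {G : Type} [Group G] [Finite G] (hG : IsZGroup G) : OE G := by
  refine OE_cyclic (commutator G) (IsZGroup.isCyclic_commutator G) ?_
  have h : IsCyclic (Abelianization G) := IsZGroup.isCyclic_abelianization
  exact OE_cyc h

end Pool.Agent.OEGZ
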