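import Pool.Agent.OEGZ.Step

/-! # OEGZ: critical sizes in lists without growing windows

* `crit_all`: `R` contains a letter (`rl R ≥ r + 2`); `R = R0 ++ (inl a :: Z)` with `rl Z = 0` (last letter), then
  `L ~r W ++ R0` with `W = inl a :: (Z ++ M)`, a window, `τ W ⊇ ss Z + τ M` (`Tau.extL`, `Tau.inlL`), `|τ W| ≤ 1 + wt W`,
  Cauchy-Davenport and `ss_card` give `|τ M| ≤ 1 + wt M`; `≥` is `Tau.card`.
* `crit_inr`: `S + τ M ⊆ τ (inr S :: M)` and equal cardinalities.
* `crit_inl`: for a window `W = M ++ (Z ++ [inl b]) = inl a :: M'` which is not growing, `τ W ⊇ τ M + ss Z`, `τ W ⊇ τ M'`, all of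
  cardinality `1 + wt W`. -/

set_option autoImplicit false

open scoped Classical Pointwise

namespace Pool.Agent.OEGZ

variable {A : Type} {p r : ℕ} {τ : List (It A p) → Finset (ZMod p)}

/-- last letter of a list -/
theorem crit_last {R : List (It A p)} (h : 1 ≤ rl R) :
    ∃ (R0 : List (It A p)) (a : A) (Z : List (It A p)), R = R0 ++ (Sum.inl a :: Z) ∧ rl Z = 0 := by
  obtain ⟨M, Z, rfl, hM⟩ := exists_ML (r := rl R - 1) (L := R) (by omega)
  have h1 := hM.rl_eq
  obtain ⟨U, b, rfl, hU⟩ := hM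
  refine ⟨U, b, Z, by simp, ?_⟩
  simp only [rl_append, rl_inl, rl_nil] at h h1
  omega

theorem crit_all [hp : Fact p.Prime] (hτ : Tau r τ) {L : List (It A p)}
    (hrl : 2 * (r + 2) ≤ rl L + 1) (hok : Ok L) (hwt : wt L + 2 ≤ p) (hT : Tm τ r L)
    (M R : List (It A p)) (hL : L.IsRotated (M ++ R)) (hM : ML r M) : (τ M).card = 1 + wt M := by
  have hrM := hM.rl_eq
  have hrLR := rl_perm hL.perm
  rw [rl_append] at hrLR
  obtain ⟨R0, a, Z, rfl, hZ⟩ := crit_last (R := R) (by omega)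
  have hrot : L.IsRotated ((Sum.inl a :: (Z ++ M)) ++ R0) := by
    refine hL.trans ?_
    have h1 : (M ++ R0 ++ (Sum.inl a :: Z)).IsRotated ((Sum.inl a :: Z) ++ (M ++ R0)) :=
      List.isRotated_append
    rw [← List.append_assoc]
    simpa using h1
  have hW : Win r (Sum.inl a :: (Z ++ M)) := by
    obtain ⟨U, b, rfl, hU⟩ := hM
    exact ⟨a, Z ++ U, b, by simp, by simp [hU, hZ]⟩
  have hng := hT _ _ hrot hW
  have hok' : Ok ((Sum.inl a :: (Z ++ M)) ++ R0) := hok.perm hrot.perm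
  have hwt' := wt_perm hrot.perm
  have hokZM : Ok (Z ++ M) := hok'.of_append_left.of_cons
  have hokM : Ok M := hokZM.of_append_right
  have hokZ : Ok Z := hokZM.of_append_left
  unfold Gr at hng
  simp only [wt_append, wt_inl] at hng hwt'
  have h1 : ss Z + τ M ⊆ τ (Sum.inl a :: (Z ++ M)) := (hτ.extL Z M).trans (hτ.inlL a _)
  have h2 := Finset.card_le_card h1
  have h3 := hτ.card M hokM (by omega)
  have h4 := ss_card hokZ
  have hne := hτ.nonempty hokM (by omega)
  have hneZ := ss_nonempty hokZ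
  have h5 := cd hneZ hne
  have h6 := hne.card_pos
  have h7 := hneZ.card_pos
  omega

theorem crit_inr [hp : Fact p.Prime] (hτ : Tau r τ) {S : Finset (ZMod p)} {M : List (It A p)}
    (hok : Ok (Sum.inr S :: M)) (hwt : wt (Sum.inr S :: M) + 2 ≤ p) (hM : r + 1 ≤ rl M)
    (h : (τ (Sum.inr S :: M)).card = 1 + wt (Sum.inr S :: M)) (h' : (τ M).card = 1 + wt M) :
    τ (Sum.inr S :: M) = S + τ M := by
  have hne := hτ.nonempty hok.of_cons hM
  have h1 := cd hok.head hne
  have h2 := hok.head.card_pos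
  simp only [wt_inr] at h hwt
  refine (Finset.eq_of_subset_of_card_le (hτ.inrL S M) ?_).symm
  omega

theorem crit_inl [hp : Fact p.Prime] (hτ : Tau r τ) {a b : A} {M M' Z : List (It A p)}
    (hW : (Sum.inl a :: M' : List (It A p)) = M ++ (Z ++ [Sum.inl b])) (hM : ML r M) (hM' : ML r M')
    (hok : Ok M') (hwt : wt M' + 2 ≤ p) (hng : ¬ Gr τ (Sum.inl a :: M')) :
    τ M' = τ M + ss Z := by
  have hr := hM.rl_eq
  have hr' := hM'.rl_eq
  have hwtW : wt (Sum.inl a :: M' : List (It A p)) = wt M + wt Z := by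
    rw [hW]
    simp
  have hokW : Ok (M ++ (Z ++ [Sum.inl b])) := by
    rw [← hW]
    exact hok.cons_inl
  have hokM := hokW.of_append_left
  have hokZ := hokW.of_append_right.of_append_left
  unfold Gr at hng
  rw [hwtW] at hng
  rw [wt_inl] at hwtW
  have h1 : τ M + ss Z ⊆ τ (Sum.inl a :: M') := by
    rw [hW, ← List.append_assoc]
    exact (hτ.extR M Z).trans (hτ.inlR b _)
  have h2 : τ M' ⊆ τ (Sum.inl a :: M') := hτ.inlL a M'
  have h3 := hτ.card M hokM (by omega)
  have h4 := hτ.card M' hok (by omega)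
  have h5 := ss_card hokZ
  have hne := hτ.nonempty hokM (by omega)
  have h6 := cd hne (ss_nonempty hokZ)
  have h7 := hne.card_pos
  have h8 := (ss_nonempty hokZ).card_pos
  have e1 : τ M + ss Z = τ (Sum.inl a :: M') := Finset.eq_of_subset_of_card_le h1 (by omega)
  have e2 : τ M' = τ (Sum.inl a :: M') := Finset.eq_of_subset_of_card_le h2 (by omega)
  rw [e2, e1]

end Pool.Agent.OEGZ
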