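import Pool.Agent.OEGZ.Basic

/-! # OEGZ: arithmetic progressions (`Cv d S`: at most one starting point with respect to `d`)

* `Cv.add`: if `z = a + b ∈ S + T` has `z - d ∉ S + T` then `a - d ∉ S` and `b - d ∉ T`, so `a`, `b` are unique.
* `Cv.iff_end`: `#{x ∈ S | x - d ∉ S} = #(S \ (S + d)) = #((S + d) \ S) = #{x ∈ S | x + d ∉ S}`.
* `Cv.of_critical`: let `T' = {x ∈ T | x - d ∈ T}`, `|T'| ≥ |T| - 1 ≥ 1`.  As `(T' - d) + {0, d} ⊆ T`,
  `S + T ⊇ (S + {0, d}) + (T' - d)`, so Cauchy-Davenport gives `|S + {0, d}| ≤ |S| + 1`.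
* `Cv.of_sum`: apply `Cv.of_critical` to `-S` and `D = (S + T)ᶜ`: `D + (-S) ⊆ Tᶜ`, `Cv d D` since the starting
  points of the complement correspond to the end points of `S + T`. -/

set_option autoImplicit false

open scoped Classical Pointwise

namespace Pool.Agent.OEGZ

variable {p : ℕ}

theorem Cv.add {d : ZMod p} {S T : Finset (ZMod p)} (hS : Cv d S) (hT : Cv d T) : Cv d (S + T) := by
  intro x hx y hy hxd hyd
  obtain ⟨a, ha, b, hb, rfl⟩ := Finset.mem_add.1 hx
  obtain ⟨a', ha', b', hb', rfl⟩ := Finset.mem_add.1 hy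
  have h1 : ∀ a ∈ S, ∀ b ∈ T, a + b - d ∉ S + T → a - d ∉ S ∧ b - d ∉ T := by
    intro a ha b hb h
    constructor
    · intro h2
      exact h (Finset.mem_add.2 ⟨a - d, h2, b, hb, by ring⟩)
    · intro h2
      exact h (Finset.mem_add.2 ⟨a, ha, b - d, h2, by ring⟩)
  obtain ⟨h2, h3⟩ := h1 a ha b hb hxd
  obtain ⟨h4, h5⟩ := h1 a' ha' b' hb' hyd
  rw [hS a ha a' ha' h2 h4, hT b hb b' hb' h3 h5]

theorem Cv.of_card_le_one {d : ZMod p} {S : Finset (ZMod p)} (hS : S.card ≤ 1) : Cv d S :=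
  fun x hx y hy _ _ => Finset.card_le_one.1 hS x hx y hy

theorem cv_card (d : ZMod p) (S : Finset (ZMod p)) :
    (S.filter (fun x => x - d ∉ S)).card = (S.filter (fun x => x + d ∉ S)).card := by
  have h1 := Finset.card_filter_add_card_filter_not (s := S) (fun x => x - d ∈ S)
  have h2 := Finset.card_filter_add_card_filter_not (s := S) (fun x => x + d ∈ S)
  have h3 : (S.filter (fun x => x - d ∈ S)).card = (S.filter (fun x => x + d ∈ S)).card := by
    refine Finset.card_bij' (fun x _ => x - d) (fun x _ => x + d) ?_ ?_ ?_ ?_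
    · intro x hx
      rw [Finset.mem_filter] at hx ⊢
      exact ⟨hx.2, by rw [sub_add_cancel]; exact hx.1⟩
    · intro x hx
      rw [Finset.mem_filter] at hx ⊢
      exact ⟨hx.2, by rw [add_sub_cancel_right]; exact hx.1⟩
    · intro x _
      exact sub_add_cancel x d
    · intro x _
      exact add_sub_cancel_right x d
  omega

theorem Cv.iff_end [hp : Fact p.Prime] {d : ZMod p} {S : Finset (ZMod p)} :
    Cv d S ↔ ∀ x ∈ S, ∀ y ∈ S, x + d ∉ S → y + d ∉ S → x = y := by
  have h1 : Cv d S ↔ (S.filter (fun x => x - d ∉ S)).card ≤ 1 := by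
    rw [Finset.card_le_one]
    constructor
    · intro h x hx y hy
      rw [Finset.mem_filter] at hx hy
      exact h x hx.1 y hy.1 hx.2 hy.2
    · intro h x hx y hy hxd hyd
      exact h x (Finset.mem_filter.2 ⟨hx, hxd⟩) y (Finset.mem_filter.2 ⟨hy, hyd⟩)
  rw [h1, cv_card, Finset.card_le_one]
  constructor
  · intro h x hx y hy hxd hyd
    exact h x (Finset.mem_filter.2 ⟨hx, hxd⟩) y (Finset.mem_filter.2 ⟨hy, hyd⟩)
  · intro h x hx y hy
    rw [Finset.mem_filter] at hx hy
    exact h x hx.1 y hy.1 hx.2 hy.2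

theorem Cv.neg [hp : Fact p.Prime] {d : ZMod p} {S : Finset (ZMod p)} (hS : Cv d S) : Cv d (-S) := by
  intro x hx y hy hxd hyd
  rw [Finset.mem_neg'] at hx hy hxd hyd
  have h1 : -x = -y := by
    refine Cv.iff_end.1 hS (-x) hx (-y) hy ?_ ?_
    · have : -x + d = -(x - d) := by ring
      rw [this]
      exact hxd
    · have : -y + d = -(y - d) := by ring
      rw [this]
      exact hyd
  exact neg_injective h1

theorem Cv.compl [hp : Fact p.Prime] {d : ZMod p} {S : Finset (ZMod p)} (hS : Cv d S) : Cv d Sᶜ := by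
  intro x hx y hy hxd hyd
  rw [Finset.mem_compl] at hx hy
  rw [Finset.mem_compl, not_not] at hxd hyd
  have h1 : x - d = y - d := by
    refine Cv.iff_end.1 hS (x - d) hxd (y - d) hyd ?_ ?_
    · rw [sub_add_cancel]
      exact hx
    · rw [sub_add_cancel]
      exact hy
  exact sub_left_injective h1

theorem Cv.of_critical [hp : Fact p.Prime] {d : ZMod p} {S T : Finset (ZMod p)} (hd : d ≠ 0) (hT : Cv d T)
    (hT2 : 2 ≤ T.card) (hS : S.Nonempty) (hcr : (S + T).card + 1 ≤ S.card + T.card)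
    (hlt : (S + T).card < p) : Cv d S := by
  have h1 := Finset.card_filter_add_card_filter_not (s := T) (fun x => x + d ∈ T)
  have h2 : (T.filter (fun x => x + d ∉ T)).card ≤ 1 := by
    rw [Finset.card_le_one]
    intro x hx y hy
    rw [Finset.mem_filter] at hx hy
    exact Cv.iff_end.1 hT x hx.1 y hy.1 hx.2 hy.2
  have h3 : 1 ≤ (T.filter (fun x => x + d ∈ T)).card := by omega
  have h4 : (T.filter (fun x => x + d ∈ T)).Nonempty := Finset.card_pos.1 h3
  have h5 : (S + {0, d}) + T.filter (fun x => x + d ∈ T) ⊆ S + T := by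
    intro z hz
    obtain ⟨u, hu, t, ht, rfl⟩ := Finset.mem_add.1 hz
    obtain ⟨s, hs, e, he, rfl⟩ := Finset.mem_add.1 hu
    rw [Finset.mem_filter] at ht
    rw [Finset.mem_insert, Finset.mem_singleton] at he
    rcases he with rfl | rfl
    · exact Finset.mem_add.2 ⟨s, hs, t, ht.1, by ring⟩
    · exact Finset.mem_add.2 ⟨s, hs, t + e, ht.2, by ring⟩
  have hne : (S + {0, d}).Nonempty := hS.add (Finset.insert_nonempty _ _)
  have h6 := cd hne h4
  have h7 := Finset.card_le_card h5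
  have h8 : (S + {0, d}).card ≤ S.card + 1 := by omega
  have hsub : S ⊆ S + {0, d} := by
    intro s hs
    exact Finset.mem_add.2 ⟨s, hs, 0, Finset.mem_insert_self _ _, add_zero s⟩
  have h9 : ((S + {0, d}) \ S).card ≤ 1 := by
    rw [Finset.card_sdiff_of_subset hsub]
    omega
  rw [Cv.iff_end]
  intro x hx y hy hxd hyd
  have h10 : ∀ x ∈ S, x + d ∉ S → x + d ∈ (S + {0, d}) \ S := by
    intro x hx hxd
    rw [Finset.mem_sdiff]
    exact ⟨Finset.mem_add.2 ⟨x, hx, d, Finset.mem_insert_of_mem (Finset.mem_singleton_self d), rfl⟩, hxd⟩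
  have h11 := Finset.card_le_one.1 h9 (x + d) (h10 x hx hxd) (y + d) (h10 y hy hyd)
  exact add_left_injective d h11

/-- one half of `Cv.of_sum` -/
theorem cv_of_sum_left [hp : Fact p.Prime] {d : ZMod p} {S T : Finset (ZMod p)} (hd : d ≠ 0)
    (h : Cv d (S + T)) (hS : S.Nonempty) (hT : T.Nonempty) (hcr : (S + T).card + 1 ≤ S.card + T.card)
    (hlt : (S + T).card + 2 ≤ p) : Cv d S := by
  have hcard : ∀ U : Finset (ZMod p), Uᶜ.card = p - U.card := by
    intro U
    rw [Finset.card_compl, ZMod.card]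
  have hD := h.compl
  have hDc := hcard (S + T)
  have hsub : -S + (S + T)ᶜ ⊆ Tᶜ := by
    intro z hz
    obtain ⟨s, hs, u, hu, rfl⟩ := Finset.mem_add.1 hz
    rw [Finset.mem_neg'] at hs
    rw [Finset.mem_compl] at hu ⊢
    intro ht
    exact hu (Finset.mem_add.2 ⟨-s, hs, s + u, ht, by ring⟩)
  have h1 := Finset.card_le_card hsub
  rw [hcard T] at h1
  have h2 : T.card ≤ p := by
    have := Finset.card_le_univ T
    rwa [ZMod.card] at this
  have h3 := hT.card_pos
  have h4 : (-S).card = S.card := Finset.card_neg S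
  have h5 : Cv d (-S) := Cv.of_critical hd hD (by omega) hS.neg (by omega) (by omega)
  have h6 := h5.neg
  rwa [neg_neg] at h6

theorem Cv.of_sum [hp : Fact p.Prime] {d : ZMod p} {S T : Finset (ZMod p)} (hd : d ≠ 0)
    (h : Cv d (S + T)) (hS : S.Nonempty) (hT : T.Nonempty) (hcr : (S + T).card + 1 ≤ S.card + T.card)
    (hlt : (S + T).card + 2 ≤ p) : Cv d S ∧ Cv d T := by
  refine ⟨cv_of_sum_left hd h hS hT hcr hlt, ?_⟩
  have hST : S + T = T + S := add_comm S T
  rw [hST] at h hcr hlt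
  refine cv_of_sum_left hd h hT hS ?_ hlt
  omega

end Pool.Agent.OEGZ
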