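import Pool.Agent.OEGZ.Ext

/-! # OEGZ: extension by a cyclic normal subgroup; chains

* `OE_equiv`: transport a list along the isomorphism.
* `OE_subsingleton`: `Nat.card G = 1`, lists of length 1, the product of one element is 1.
* `OE_cyclic`: strong induction on `Nat.card K` (for all `G`).  `K = ⊥`: `G ⧸ ⊥ ≃* G`.  Otherwise let `q` be a prime divisor of `Nat.card K`, `P ≤ K` the
  subgroup of order `q` (unique in a cyclic group, so invariant under conjugation by `G`: normal in `G`).  `K.map (mk' P)` is a cyclic normal subgroup of `G ⧸ P` of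
  smaller order, `(G ⧸ P) ⧸ K.map (mk' P) ≃* G ⧸ K` (`QuotientGroup.quotientQuotientEquivQuotient`), so `OE (G ⧸ P)` by induction, and `OE_ext`.
* `OE_chain`: induction on `r`; `(G ⧸ N i) ⧸ (N (i+1)).map (mk' (N i)) ≃* G ⧸ N (i+1)`; so from `OE (G ⧸ N (i+1))` get `OE (G ⧸ N i)`; finally `G ⧸ ⊥ ≃* G`. -/

set_option autoImplicit false

open scoped Classical Pointwise

namespace Pool.Agent.OEGZ

theorem OE_equiv {G H : Type} [Group G] [Group H] (e : G ≃* H) (h : OE G) : OE H := by
  intro l hl
  have hc : Nat.card G = Nat.card H := Nat.card_congr e.toEquiv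
  obtain ⟨l', h1, h2, h3⟩ := h (l.map e.symm) (by rw [List.length_map, hc]; exact hl)
  refine ⟨l'.map e, ?_, ?_, ?_⟩
  · have h4 := h1.map e
    have h5 : (l.map e.symm).map e = l := by
      rw [List.map_map]
      have h6 : (e ∘ e.symm : H → H) = id := by
        funext x
        exact e.apply_symm_apply x
      rw [h6, List.map_id]
    rw [h5] at h4
    exact h4
  · rw [List.length_map, h2, hc]
  · rw [← map_list_prod, h3, map_one]

theorem OE_subsingleton {G : Type} [Group G] [Subsingleton G] : OE G := by
  intro l hl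
  have hc : Nat.card G = 1 := Nat.card_unique
  refine ⟨l, List.Sublist.refl l, ?_, Subsingleton.elim _ _⟩
  rw [hc] at hl ⊢
  omega

/-- in a cyclic group the elements killed by the order of `x` are powers of `x` -/
theorem cyc_mem {K : Type} [Group K] [Finite K] [IsCyclic K] (x y : K)
    (h : y ^ orderOf x = 1) : y ∈ Subgroup.zpowers x := by
  have := Fintype.ofFinite K
  have h0 : 0 < orderOf x := orderOf_pos x
  have h1 := IsCyclic.card_pow_eq_one_le (α := K) h0
  have h2 : (Finset.univ.filter fun a : K => a ∈ Subgroup.zpowers x) =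
      Finset.univ.filter fun a : K => a ^ orderOf x = 1 := by
    apply Finset.eq_of_subset_of_card_le
    · intro a ha
      rw [Finset.mem_filter] at ha ⊢
      refine ⟨Finset.mem_univ a, ?_⟩
      obtain ⟨k, hk⟩ := Subgroup.mem_zpowers_iff.1 ha.2
      rw [← hk, ← zpow_natCast, ← zpow_mul, mul_comm, zpow_mul, zpow_natCast, pow_orderOf_eq_one,
        one_zpow]
    · refine h1.trans ?_
      rw [← Nat.card_zpowers x, ← Fintype.card_subtype, ← Nat.card_eq_fintype_card]
  have h3 : y ∈ Finset.univ.filter fun a : K => a ^ orderOf x = 1 := by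
    rw [Finset.mem_filter]
    exact ⟨Finset.mem_univ y, h⟩
  rw [← h2, Finset.mem_filter] at h3
  exact h3.2

theorem cyc_normal {G : Type} [Group G] [Finite G] (K : Subgroup G) [hn : K.Normal]
    (hK : IsCyclic K) (x : K) : (Subgroup.zpowers (x : G)).Normal := by
  constructor
  intro y hy g
  have key : g * (x : G) * g⁻¹ ∈ Subgroup.zpowers (x : G) := by
    have hmem : g * (x : G) * g⁻¹ ∈ K := hn.conj_mem _ x.2 g
    have h1 : (⟨g * (x : G) * g⁻¹, hmem⟩ : K) ∈ Subgroup.zpowers x := by
      apply cyc_mem
      apply Subtype.ext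
      rw [SubmonoidClass.coe_pow, conj_pow]
      have h2 : ((x : G)) ^ orderOf x = 1 := by
        rw [← SubmonoidClass.coe_pow, pow_orderOf_eq_one]
        rfl
      rw [h2]
      simp
    obtain ⟨k, hk⟩ := Subgroup.mem_zpowers_iff.1 h1
    refine Subgroup.mem_zpowers_iff.2 ⟨k, ?_⟩
    exact congrArg (Subtype.val) hk
  obtain ⟨k, rfl⟩ := Subgroup.mem_zpowers_iff.1 hy
  rw [← conj_zpow]
  exact Subgroup.zpow_mem _ key k

theorem cyc_map {G H : Type} [Group G] [Group H] (f : G →* H) (K : Subgroup G)
    (hK : IsCyclic K) : IsCyclic (K.map f) := by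
  exact isCyclic_of_surjective (f.subgroupMap K) (f.subgroupMap_surjective K)

theorem cyc_aux : ∀ (n : ℕ) (G : Type) [Group G] [Finite G] (K : Subgroup G) [K.Normal],
    IsCyclic K → Nat.card K = n → OE (G ⧸ K) → OE G := by
  intro n
  induction n using Nat.strong_induction_on with
  | _ n ih =>
    intro G _ _ K hnK hK hn hQ
    by_cases hb : K = ⊥
    · subst hb
      exact OE_equiv QuotientGroup.quotientBot hQ
    · have h1 : Nat.card K ≠ 1 := by
        intro h
        exact hb (Subgroup.card_eq_one.1 h)
      obtain ⟨q, hq, hqd⟩ := Nat.exists_prime_and_dvd h1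
      have : Fact q.Prime := ⟨hq⟩
      obtain ⟨x, hx⟩ := exists_prime_orderOf_dvd_card' q hqd
      have hP : (Subgroup.zpowers (x : G)).Normal := cyc_normal K hK x
      have hPc : Nat.card (Subgroup.zpowers (x : G)) = q := by
        rw [Nat.card_zpowers, Subgroup.orderOf_coe, hx]
      have hle : Subgroup.zpowers (x : G) ≤ K := by
        rw [Subgroup.zpowers_le]
        exact x.2
      have hn2 : (K.map (QuotientGroup.mk' (Subgroup.zpowers (x : G)))).Normal :=
        hnK.map _ (QuotientGroup.mk'_surjective _)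
      let e := QuotientGroup.quotientQuotientEquivQuotient (Subgroup.zpowers (x : G)) K hle
      have hc : Nat.card (K.map (QuotientGroup.mk' (Subgroup.zpowers (x : G)))) < n := by
        have c1 := Subgroup.card_eq_card_quotient_mul_card_subgroup (Subgroup.zpowers (x : G))
        have c2 := Subgroup.card_eq_card_quotient_mul_card_subgroup K
        have c3 := Subgroup.card_eq_card_quotient_mul_card_subgroup
          (K.map (QuotientGroup.mk' (Subgroup.zpowers (x : G))))
        have c4 := Nat.card_congr e.toEquiv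
        rw [c4] at c3
        rw [c3, c2, hPc, hn] at c1
        have c5 : 0 < Nat.card (G ⧸ K) := Nat.card_pos
        have c6 : n = Nat.card (K.map (QuotientGroup.mk' (Subgroup.zpowers (x : G)))) * q := by
          rw [mul_assoc] at c1
          exact Nat.eq_of_mul_eq_mul_left c5 c1
        have c7 : 0 < Nat.card (K.map (QuotientGroup.mk' (Subgroup.zpowers (x : G)))) :=
          Nat.card_pos
        have c8 := hq.two_le
        rw [c6]
        nlinarith
      have hOE : OE (G ⧸ Subgroup.zpowers (x : G)) :=
        ih _ hc (G ⧸ Subgroup.zpowers (x : G))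
          (K.map (QuotientGroup.mk' (Subgroup.zpowers (x : G)))) (cyc_map _ K hK) rfl
          (OE_equiv e.symm hQ)
      exact OE_ext (Subgroup.zpowers (x : G)) (by rw [hPc]; exact hq) hOE

theorem OE_cyclic {G : Type} [Group G] [Finite G] (K : Subgroup G) [K.Normal] (hK : IsCyclic K)
    (hQ : OE (G ⧸ K)) : OE G := by
  exact cyc_aux (Nat.card K) G K hK rfl hQ

/-- chains of normal subgroups with cyclic factors, from `⊥` to `N r`, and `G ⧸ N r` has the property -/
theorem OE_chain {G : Type} [Group G] [Finite G] (r : ℕ) (N : ℕ → Subgroup G) (hN : ∀ i, (N i).Normal)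
    (h0 : N 0 = ⊥) (hle : ∀ i < r, N i ≤ N (i + 1))
    (hcyc : ∀ i < r, IsCyclic ((N (i + 1)).map (QuotientGroup.mk' (N i))))
    (hQ : OE (G ⧸ N r)) : OE G := by
  induction r with
  | zero =>
    have := hN 0
    exact OE_equiv QuotientGroup.quotientBot (OE_equiv (QuotientGroup.quotientMulEquivOfEq h0) hQ)
  | succ r ih =>
    apply ih (fun i hi => hle i (Nat.lt_succ_of_lt hi)) (fun i hi => hcyc i (Nat.lt_succ_of_lt hi))
    have := hN r
    have := hN (r + 1)
    have hn2 : ((N (r + 1)).map (QuotientGroup.mk' (N r))).Normal :=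
      (hN (r + 1)).map _ (QuotientGroup.mk'_surjective _)
    apply OE_cyclic ((N (r + 1)).map (QuotientGroup.mk' (N r))) (hcyc r (Nat.lt_succ_self r))
    exact OE_equiv
      (QuotientGroup.quotientQuotientEquivQuotient (N r) (N (r + 1)) (hle r (Nat.lt_succ_self r))).symm
      hQ

end Pool.Agent.OEGZ
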