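import Pool.Agent.OEGZ.AbsMain
import Pool.Agent.OEGZ.Conc
import Pool.Agent.OEGZ.ConcCard

/-! # OEGZ: extension by a normal subgroup of prime order

`p = Nat.card N`, `N ≃ Multiplicative (ZMod p)` (prime order, cyclic) gives `ι : ZMod p → G`, `Emb ι`, range `N`.  `m = Nat.card (G ⧸ N)`,
`Nat.card G = m * p`, `r = 2 m - 2`.  `hgood` of `conc_card`: apply `hQ` to `l.map (QuotientGroup.mk)`, the sublist of the image is the image
of a sublist (`List.sublist_map_iff`), its product lies in `N`.  `Tau r (tv ι m)` from `conc_card`, `conc_inl`, `conc_inr`; `conc_snd`; `abs_main` for a list of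
length `2 * Nat.card G - 1`; `FP_letters`. -/

set_option autoImplicit false

open scoped Classical Pointwise

namespace Pool.Agent.OEGZ

theorem exists_emb {G : Type} [Group G] [Finite G] (N : Subgroup G) [N.Normal] (p : ℕ)
    [hp : Fact p.Prime] (hN : Nat.card N = p) :
    ∃ ι : ZMod p → G, Emb ι ∧ ∀ g : G, g ∈ N ↔ ∃ a, g = ι a := by
  have hcyc : IsCyclic N := isCyclic_of_prime_card hN
  subst hN
  let e : Multiplicative (ZMod (Nat.card N)) ≃* N := zmodCyclicMulEquiv hcyc
  have hsurj : ∀ g : G, g ∈ N ↔ ∃ a : ZMod (Nat.card N), g = (e (Multiplicative.ofAdd a) : G) := by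
    intro g
    constructor
    · intro hg
      refine ⟨(e.symm ⟨g, hg⟩).toAdd, ?_⟩
      simp
    · rintro ⟨a, rfl⟩
      exact (e (Multiplicative.ofAdd a)).2
  refine ⟨fun a => (e (Multiplicative.ofAdd a) : G), ⟨?_, ?_, ?_⟩, hsurj⟩
  · intro a b
    simp [ofAdd_add]
  · intro a b hab
    have h1 : e (Multiplicative.ofAdd a) = e (Multiplicative.ofAdd b) := Subtype.ext hab
    exact Multiplicative.ofAdd.injective (e.injective h1)
  · intro g a
    have h1 : g * (e (Multiplicative.ofAdd a) : G) * g⁻¹ ∈ N :=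
      Subgroup.Normal.conj_mem inferInstance _ (e (Multiplicative.ofAdd a)).2 g
    exact (hsurj _).1 h1

theorem OE_ext {G : Type} [Group G] [Finite G] (N : Subgroup G) [N.Normal]
    (hN : (Nat.card N).Prime) (hQ : OE (G ⧸ N)) : OE G := by
  obtain ⟨p, hp⟩ : ∃ p, Nat.card N = p := ⟨_, rfl⟩
  have hpp : Fact p.Prime := ⟨hp ▸ hN⟩
  obtain ⟨ι, hι, hιN⟩ := exists_emb N p hp
  obtain ⟨m, hm⟩ : ∃ m, Nat.card (G ⧸ N) = m := ⟨_, rfl⟩
  have hm0 : 0 < m := hm ▸ Nat.card_pos
  have hcard : Nat.card G = m * p := by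
    rw [Subgroup.card_eq_card_quotient_mul_card_subgroup N, hm, hp]
  obtain ⟨r, hr⟩ : ∃ r, r + 2 = 2 * m := ⟨2 * m - 2, by omega⟩
  have hgood : ∀ l : List G, l.length + 1 = 2 * m → ∃ l' : List G, l'.Sublist l ∧ l'.length = m ∧
      ∃ a, l'.prod = ι a := by
    intro l hl
    obtain ⟨l'', h1, h2, h3⟩ := hQ (l.map (QuotientGroup.mk' N)) (by rw [List.length_map, hl, hm])
    rw [List.sublist_map_iff] at h1
    obtain ⟨l', h4, rfl⟩ := h1
    refine ⟨l', h4, ?_, ?_⟩
    · rw [← hm, ← h2, List.length_map]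
    · rw [← hιN, ← QuotientGroup.eq_one_iff]
      rw [← map_list_prod] at h3
      exact h3
  have hτ : Tau r (tv ι m) :=
    { card := fun L hL h => conc_card hι hr hgood L hL h
      inlL := fun a L => (conc_inl hι m a L).1
      inlR := fun a L => (conc_inl hι m a L).2
      inrL := fun S L => (conc_inr hι m S L).1
      inrR := fun S L => (conc_inr hι m S L).2 }
  intro l hl
  have h1 := abs_main hτ (conc_snd hι m r) l (by rw [hl, hr, hcard]; ring)
  obtain ⟨l', h2, h3, h4⟩ := FP_letters ι l _ h1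
  exact ⟨l', h2, by rw [h3, hcard, mul_comm], h4⟩

end Pool.Agent.OEGZ
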