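import Pool.Agent.OEGZ.Defs

/-! # OEGZ: translation between lists and functions on `Fin` -/

set_option autoImplicit false

namespace Pool.Agent.OEGZ

/-- the property in terms of increasing maps between index sets implies the list form -/
theorem OE_of_fin {G : Type} [Group G] [Finite G]
    (h : ∀ a : Fin (2 * Nat.card G - 1) → G, ∃ f : Fin (Nat.card G) → Fin (2 * Nat.card G - 1),
      StrictMono f ∧ (List.ofFn (fun i => a (f i))).prod = 1) : OE G := by
  intro l hl
  have hlen : l.length = 2 * Nat.card G - 1 := by omega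
  obtain ⟨f, hf, hprod⟩ := h (fun i => l.get (Fin.cast hlen.symm i))
  refine ⟨List.ofFn (fun i => l.get (Fin.cast hlen.symm (f i))), ?_, by simp, hprod⟩
  rw [List.sublist_iff_exists_fin_orderEmbedding_get_eq]
  refine ⟨OrderEmbedding.ofStrictMono (fun i => Fin.cast hlen.symm (f (Fin.cast (by simp) i))) ?_, ?_⟩
  · intro i j hij
    have h1 : f (Fin.cast (by simp) i) < f (Fin.cast (by simp) j) := hf hij
    exact h1
  · intro i
    simp
    rfl

/-- the list form implies the form with increasing maps -/
theorem OE.fin {G : Type} [Group G] [Finite G] (h : OE G)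
    (a : Fin (2 * Nat.card G - 1) → G) : ∃ f : Fin (Nat.card G) → Fin (2 * Nat.card G - 1),
      StrictMono f ∧ (List.ofFn (fun i => a (f i))).prod = 1 := by
  have hpos : 0 < Nat.card G := Nat.card_pos
  obtain ⟨l', hl', hlen, hprod⟩ := h (List.ofFn a) (by simp; omega)
  rw [List.sublist_iff_exists_fin_orderEmbedding_get_eq] at hl'
  obtain ⟨f, hf⟩ := hl'
  have hla : (List.ofFn a).length = 2 * Nat.card G - 1 := by simp
  refine ⟨fun i => Fin.cast hla (f (Fin.cast hlen.symm i)), ?_, ?_⟩
  · intro i j hij
    have h1 : f (Fin.cast hlen.symm i) < f (Fin.cast hlen.symm j) := f.strictMono hij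
    exact h1
  · have h2 : List.ofFn (fun i => a (Fin.cast hla (f (Fin.cast hlen.symm i)))) = l' := by
      apply List.ext_get
      · simp [hlen]
      · intro n h3 h4
        have h5 := hf ⟨n, h4⟩
        simp at h5 ⊢
        rw [h5]
        rfl
    rw [h2, hprod]

end Pool.Agent.OEGZ
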