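import Pool.Agent.OEGZ.Basic

/-! # OEGZ: relative position of two windows of a cyclic list (list combinatorics)

`W ++ R = X ++ Y`, `W' ++ R' = Y ++ X`.
(a) `Y = W' ++ Z`, `R' = Z ++ X`; `W ++ R = X ++ W' ++ Z`.
  (a1) `|X| ≥ |W|`: `X = W ++ X2`, `R = X2 ++ W' ++ Z`, `R' = Z ++ W ++ X2`: second alternative.
  (a2) `|X| < |W|`: `W = X ++ W2`, `W2 ++ R = W' ++ Z`.  If `|W2| ≤ |W'|`: `W' = W2 ++ W3`, `R = W3 ++ Z`: third alternative with `C = Z`
    (if `X = []` also `W = W'`, `R = R'` would hold, either alternative is fine).  If `|W2| > |W'|`: `W = X ++ W' ++ W4`, by the numbers of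
    letters `rl X = rl W4 = 0`; `W` starts and ends with a letter so `X = []`, `W4 = []`: first alternative.
(b) `W' = Y ++ W5`, `X = W5 ++ R'`; `W ++ R = W5 ++ R' ++ Y`.
  (b1) `|W| ≤ |W5|`: `W5 = W ++ W6`, `W' = Y ++ W ++ W6`: `Y = []`, `W6 = []`: first alternative.
  (b2) `|W| > |W5|`: `W = W5 ++ W7`, `W7 ++ R = R' ++ Y`.  If `|W7| ≤ |R'|`: `R' = W7 ++ R8`, `R = R8 ++ Y`: fourth alternative
    (`X := Y`, `Y := W5`, `Z := W7`, `C := R8`; if `W5 = []` it is the second alternative with `A' = R8`... or `B = []`).
    If `|W7| > |R'|`: `W = W5 ++ R' ++ W9`, `W' = W9 ++ R ++ W5`; then `W9 ≠ []` is a suffix of `W`; if `W5 = []` then `W' = W9 ++ R`,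
    `W = R' ++ W9`, so `rl W + rl W' = rl (W ++ R) + rl W9`, hence `rl W9 ≥ ...`; count letters to exclude or to put into one of the alternatives. -/

set_option autoImplicit false

open scoped Classical Pointwise

namespace Pool.Agent.OEGZ

variable {A : Type} {p r : ℕ}

theorem overlap_first {U V : List (It A p)} (h : Win r (U ++ V)) (hU : U ≠ []) : 1 ≤ rl U := by
  obtain ⟨a, T, b, h1, _⟩ := h
  rcases U with _ | ⟨x, U⟩
  · exact absurd rfl hU
  · rw [List.cons_append] at h1
    have h2 : x = Sum.inl a := (List.cons.inj h1).1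
    rw [h2, rl_inl]
    omega

theorem overlap_last {U V : List (It A p)} (h : Win r (U ++ V)) (hV : V ≠ []) : 1 ≤ rl V := by
  obtain ⟨a, T, b, h1, _⟩ := h
  rcases List.eq_nil_or_concat V with h2 | ⟨V', x, h2⟩
  · exact absurd h2 hV
  · rw [List.concat_eq_append] at h2
    rw [h2, ← List.append_assoc, ← List.cons_append] at h1
    have h3 := (List.append_inj' h1 rfl).2
    have h4 : x = Sum.inl b := by simpa using h3
    rw [h2, h4, rl_append, rl_inl]
    omega

theorem overlap {W R W' R' : List (It A p)} (h : (W ++ R).IsRotated (W' ++ R')) (hW : Win r W)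
    (hW' : Win r W') (hrl : 2 * (r + 2) ≤ rl (W ++ R) + 1) :
    (W = W' ∧ R = R') ∨
    (∃ A' B, R = A' ++ W' ++ B ∧ R' = B ++ W ++ A') ∨
    (∃ X Y Z C, W = X ++ Y ∧ W' = Y ++ Z ∧ R = Z ++ C ∧ R' = C ++ X ∧ Y ≠ []) ∨
    (∃ X Y Z C, W' = X ++ Y ∧ W = Y ++ Z ∧ R' = Z ++ C ∧ R = C ++ X ∧ Y ≠ []) := by
  obtain ⟨X, Y, h1, h2⟩ : ∃ X Y, W ++ R = X ++ Y ∧ W' ++ R' = Y ++ X := by
    obtain ⟨n, hn, h1⟩ := List.isRotated_iff_mod.1 h
    refine ⟨(W ++ R).take n, (W ++ R).drop n, (List.take_append_drop _ _).symm, ?_⟩
    rw [← h1, List.rotate_eq_drop_append_take hn]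
  have hrW := hW.rl_eq
  have hrW' := hW'.rl_eq
  have hrR : r + 1 ≤ rl R := by
    rw [rl_append] at hrl
    omega
  rcases List.append_eq_append_iff.1 h2 with ⟨Z, h3, h4⟩ | ⟨W5, h3, h4⟩
  · -- `Y = W' ++ Z`, `R' = Z ++ X`
    subst h3
    rcases List.append_eq_append_iff.1 h1 with ⟨X2, h5, h6⟩ | ⟨W2, h5, h6⟩
    · -- `X = W ++ X2`
      right; left
      exact ⟨X2, Z, by rw [h6, List.append_assoc], by rw [h4, h5, List.append_assoc]⟩
    · -- `W = X ++ W2`, `W' ++ Z = W2 ++ R`
      rcases List.append_eq_append_iff.1 h6 with ⟨W4, h7, h8⟩ | ⟨W3, h7, h8⟩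
      · -- `W2 = W' ++ W4`, `Z = W4 ++ R`
        by_cases hW4 : W4 = []
        · subst hW4
          rw [List.append_nil] at h7
          subst h7
          by_cases hX : X = []
          · left
            subst hX
            refine ⟨h5, ?_⟩
            rw [h4, h8]
            simp
          · exfalso
            have e1 := overlap_first (r := r) (U := X) (V := W2) (by rw [← h5]; exact hW) hX
            have e2 : rl W = rl X + rl W2 := by rw [h5, rl_append]
            omega
        · exfalso
          have e1 := overlap_last (r := r) (U := X ++ W') (V := W4)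
            (by rw [List.append_assoc, ← h7, ← h5]; exact hW) hW4
          have e2 : rl W = rl X + (rl W' + rl W4) := by rw [h5, h7, rl_append, rl_append]
          omega
      · -- `W' = W2 ++ W3`, `R = W3 ++ Z`
        by_cases hW2 : W2 = []
        · subst hW2
          right; left
          refine ⟨[], Z, ?_, ?_⟩
          · rw [h8, h7]
            simp
          · rw [h4, h5]
            simp
        · right; right; left
          exact ⟨X, W2, W3, Z, h5, h7, h8, h4, hW2⟩
  · -- `W' = Y ++ W5`, `X = W5 ++ R'`
    subst h4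
    rw [List.append_assoc] at h1
    rcases List.append_eq_append_iff.1 h1 with ⟨W6, h5, h6⟩ | ⟨W7, h5, h6⟩
    · -- `W5 = W ++ W6`, `R = W6 ++ (R' ++ Y)`
      have e2 : rl W' = rl Y + (rl W + rl W6) := by rw [h3, h5, rl_append, rl_append]
      have hY : Y = [] := by
        by_contra hY
        have e1 := overlap_first (r := r) (U := Y) (V := W5) (by rw [← h3]; exact hW') hY
        omega
      have hW6 : W6 = [] := by
        by_contra hW6
        have e1 := overlap_last (r := r) (U := Y ++ W) (V := W6)
          (by rw [List.append_assoc, ← h5, ← h3]; exact hW') hW6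
        omega
      left
      subst hY
      subst hW6
      constructor
      · rw [h3, h5]
        simp
      · rw [h6]
        simp
    · -- `W = W5 ++ W7`, `R' ++ Y = W7 ++ R`
      by_cases hW5 : W5 = []
      · subst hW5
        rw [List.append_nil] at h3
        rw [List.nil_append] at h5
        subst h3
        subst h5
        -- `R' ++ W' = W ++ R`
        rcases List.append_eq_append_iff.1 h6 with ⟨T, h7, h8⟩ | ⟨T, h7, h8⟩
        · -- `W = R' ++ T`, `W' = T ++ R`
          by_cases hT : T = []
          · subst hT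
            rw [List.nil_append] at h8
            rw [List.append_nil] at h7
            right; left
            exact ⟨[], [], by rw [h8]; simp, by rw [h7]; simp⟩
          · by_cases hR' : R' = []
            · subst hR'
              exfalso
              rw [List.nil_append] at h7
              subst h7
              have e2 : rl W' = rl W + rl R := by rw [h8, rl_append]
              omega
            · right; right; left
              exact ⟨R', T, R, [], h7, h8, by simp, by simp, hT⟩
        · -- `R' = W ++ T`, `R = T ++ W'`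
          right; left
          exact ⟨T, [], by rw [h8]; simp, by rw [h7]; simp⟩
      · rcases List.append_eq_append_iff.1 h6 with ⟨W9, h7, h8⟩ | ⟨R8, h7, h8⟩
        · -- `W7 = R' ++ W9`, `Y = W9 ++ R`
          by_cases hW9 : W9 = []
          · subst hW9
            rw [List.append_nil] at h7
            rw [List.nil_append] at h8
            right; right; right
            refine ⟨Y, W5, W7, [], h3, h5, by rw [h7]; simp, by rw [h8]; simp, hW5⟩
          · exfalso
            have e1 := overlap_first (r := r) (U := W5) (V := W7) (by rw [← h5]; exact hW) hW5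
            have e3 := overlap_last (r := r) (U := W5 ++ R') (V := W9)
              (by rw [List.append_assoc, ← h7, ← h5]; exact hW) hW9
            have e2 : rl W' = rl W9 + rl R + rl W5 := by rw [h3, h8, rl_append, rl_append]
            omega
        · -- `R' = W7 ++ R8`, `R = R8 ++ Y`
          right; right; right
          exact ⟨Y, W5, W7, R8, h3, h5, h7, h8, hW5⟩

end Pool.Agent.OEGZ
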