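import Pool.Agent.OEGZ.Cv

/-! # OEGZ: Vosper's theorem

Induction on `|T|` (for all `S`).
* `|T| = 2`, `T = {b, b + d}`: `Cv d T`, and `Cv d S` by `Cv.of_critical`.
* `|T| ≥ 3`.  Translate so that `0 ∈ T`.  For `a ∈ S` the transform `S(a) = S ∪ (a + T)`,
  `T(a) = T ∩ (S - a)` (contains `0`) has `S(a) + T(a) ⊆ S + T`, `|S(a)| + |T(a)| = |S| + |T|`.
  If `2 ≤ |T(a)| < |T|` for some `a`, then Cauchy-Davenport gives `S(a) + T(a) = S + T` and the pair is critical, by
  induction both are `Cv d`, so `S + T` is `Cv d` (`Cv.add`) and `Cv.of_sum` gives the claim.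
  Otherwise every `a ∈ S` has `T(a) = {0}` or `T(a) = T`.  Let `X = {a ∈ S | T(a) = {0}}`, `Y = S \ X`.
  For `a ∈ X` the set `a + (T \ {0})` is disjoint from `S`, so `S + T ⊇ S ⊔ (X + (T \ {0}))`, and if `X ≠ ∅`,
  `|S| + |T| - 1 ≥ |S| + |X| + |T| - 2`, so `|X| ≤ 1`.  Hence `|Y| ≥ |S| - 1 ≥ 1`, `Y + T ⊆ S`, and
  Cauchy-Davenport gives `|S| ≥ |S| - 1 + |T| - 1 > |S|`, a contradiction. -/

set_option autoImplicit false

open scoped Classical Pointwise

namespace Pool.Agent.OEGZ

variable {p : ℕ}

theorem vosper_two [hp : Fact p.Prime] {S T : Finset (ZMod p)} (hS : 2 ≤ S.card) (hT : T.card = 2)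
    (hcr : (S + T).card + 1 ≤ S.card + T.card) (hlt : (S + T).card + 2 ≤ p) :
    ∃ d : ZMod p, d ≠ 0 ∧ Cv d S ∧ Cv d T := by
  obtain ⟨x, y, hxy, rfl⟩ := Finset.card_eq_two.mp hT
  have hd : y - x ≠ 0 := sub_ne_zero.mpr (Ne.symm hxy)
  have hcv : Cv (y - x) ({x, y} : Finset (ZMod p)) := by
    have key : ∀ u ∈ ({x, y} : Finset (ZMod p)), u - (y - x) ∉ ({x, y} : Finset (ZMod p)) →
        u = x := by
      intro u hu hu2
      rw [Finset.mem_insert, Finset.mem_singleton] at hu
      rcases hu with h | h
      · exact h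
      · exfalso
        apply hu2
        rw [h, sub_sub_cancel]
        exact Finset.mem_insert_self x _
    intro u hu v hv hu2 hv2
    rw [key u hu hu2, key v hv hv2]
  refine ⟨y - x, hd, ?_, hcv⟩
  exact Cv.of_critical hd hcv hT.ge (Finset.card_pos.mp (by omega)) hcr (by omega)

theorem vosper_aux [hp : Fact p.Prime] (n : ℕ) : ∀ (S T : Finset (ZMod p)), T.card = n → 2 ≤ S.card →
    2 ≤ T.card → (S + T).card + 1 ≤ S.card + T.card → (S + T).card + 2 ≤ p →
    ∃ d : ZMod p, d ≠ 0 ∧ Cv d S ∧ Cv d T := by
  induction n using Nat.strong_induction_on with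
  | _ n ih =>
    intro S T hn hS hT hcr hlt
    by_cases h2 : T.card = 2
    · exact vosper_two hS h2 hcr hlt
    have hT3 : 3 ≤ T.card := by omega
    have hSne : S.Nonempty := Finset.card_pos.mp (by omega)
    have hTne : T.Nonempty := Finset.card_pos.mp (by omega)
    obtain ⟨t0, ht0⟩ := hTne
    set T1 : ZMod p → Finset (ZMod p) := fun a => T ∩ (-(a - t0) +ᵥ S) with hT1
    have hmem : ∀ a t, t ∈ T1 a ↔ t ∈ T ∧ (a - t0) + t ∈ S := by
      intro a t
      simp only [hT1, Finset.mem_inter]
      rw [Finset.mem_neg_vadd_finset_iff, vadd_eq_add]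
    by_cases hex : ∃ a ∈ S, 2 ≤ (T1 a).card ∧ (T1 a).card < T.card
    · obtain ⟨a, haS, h21, h22⟩ := hex
      have hsub := Finset.addDysonETransform.subset (a - t0) (S, T)
      have hcard := Finset.addDysonETransform.card (a - t0) (S, T)
      set S1 : Finset (ZMod p) := S ∪ ((a - t0) +ᵥ T) with hS1
      have e1 : (Finset.addDysonETransform (a - t0) (S, T)).1 = S1 := rfl
      have e2 : (Finset.addDysonETransform (a - t0) (S, T)).2 = T1 a := rfl
      rw [e1, e2] at hsub hcard
      simp only at hsub hcard
      have hc1 : (S1 + T1 a).card ≤ (S + T).card := Finset.card_le_card hsub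
      have hS1c : S.card ≤ S1.card := Finset.card_le_card Finset.subset_union_left
      have hS1n : S1.Nonempty := Finset.card_pos.mp (by omega)
      have hT1n : (T1 a).Nonempty := Finset.card_pos.mp (by omega)
      obtain ⟨d, hd, hcS, hcT⟩ := ih (T1 a).card (by omega) S1 (T1 a) rfl (by omega) h21
        (by omega) (by omega)
      have hcd := cd hS1n hT1n
      have heq : S1 + T1 a = S + T := by
        apply Finset.eq_of_subset_of_card_le hsub
        omega
      have hcv : Cv d (S + T) := by
        rw [← heq]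
        exact hcS.add hcT
      obtain ⟨r1, r2⟩ := Cv.of_sum hd hcv hSne ⟨t0, ht0⟩ hcr hlt
      exact ⟨d, hd, r1, r2⟩
    · exfalso
      push Not at hex
      have hsubT : ∀ a, T1 a ⊆ T := fun a => Finset.inter_subset_left
      set X : Finset (ZMod p) := S.filter (fun a => (T1 a).card ≤ 1) with hX
      set Y : Finset (ZMod p) := S.filter (fun a => ¬ (T1 a).card ≤ 1) with hY
      have hXY : X.card + Y.card = S.card := Finset.card_filter_add_card_filter_not _
      have hYT : ∀ a ∈ Y, ∀ t ∈ T, (a - t0) + t ∈ S := by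
        intro a ha t ht
        rw [hY, Finset.mem_filter] at ha
        have h3 := hex a ha.1 (by omega)
        have h4 : T1 a = T := Finset.eq_of_subset_of_card_le (hsubT a) h3
        rw [← h4] at ht
        exact ((hmem a t).mp ht).2
      have hXT : ∀ a ∈ X, ∀ t ∈ T, t ≠ t0 → (a - t0) + t ∉ S := by
        intro a ha t ht htt hS'
        rw [hX, Finset.mem_filter] at ha
        have h3 : t ∈ T1 a := (hmem a t).mpr ⟨ht, hS'⟩
        have h4 : t0 ∈ T1 a := (hmem a t0).mpr ⟨ht0, by rw [sub_add_cancel]; exact ha.1⟩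
        have h5 := Finset.card_le_one.mp ha.2 t h3 t0 h4
        exact htt h5
      -- X has at most one element
      have hsS : S.card ≤ (S + T).card := Finset.card_le_card_add_right ⟨t0, ht0⟩
      have hX1 : X.card ≤ 1 := by
        by_contra hXc
        push Not at hXc
        have hXn : X.Nonempty := Finset.card_pos.mp (by omega)
        have hTe : (T.erase t0).card = T.card - 1 := Finset.card_erase_of_mem ht0
        have hTen : (T.erase t0).Nonempty := Finset.card_pos.mp (by omega)
        have hcd := cd hXn hTen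
        have hdisj : Disjoint (S + {t0}) (X + T.erase t0) := by
          rw [Finset.disjoint_left]
          intro z hz1 hz2
          obtain ⟨s, hs, u, hu, rfl⟩ := Finset.mem_add.mp hz1
          rw [Finset.mem_singleton] at hu
          subst hu
          obtain ⟨a, ha, t, ht, hat⟩ := Finset.mem_add.mp hz2
          rw [Finset.mem_erase] at ht
          apply hXT a ha t ht.2 ht.1
          have : a - u + t = s := by
            rw [sub_add_eq_add_sub, hat, add_sub_cancel_right]
          rw [this]
          exact hs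
        have hun : (S + {t0}) ∪ (X + T.erase t0) ⊆ S + T := by
          apply Finset.union_subset
          · exact Finset.add_subset_add_left (Finset.singleton_subset_iff.mpr ht0)
          · exact Finset.add_subset_add (Finset.filter_subset _ _) (Finset.erase_subset _ _)
        have hc := Finset.card_le_card hun
        rw [Finset.card_union_of_disjoint hdisj] at hc
        have hst : (S + {t0}).card = S.card := by
          rw [Finset.add_singleton]
          exact Finset.card_image_of_injective _ (fun x y h => add_right_cancel h)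
        omega
      have hYn : Y.Nonempty := Finset.card_pos.mp (by omega)
      have hcd := cd hYn ⟨t0, ht0⟩
      have hYS : Y + T ⊆ S + {t0} := by
        intro z hz
        obtain ⟨a, ha, t, ht, rfl⟩ := Finset.mem_add.mp hz
        have h3 := hYT a ha t ht
        rw [Finset.mem_add]
        refine ⟨(a - t0) + t, h3, t0, Finset.mem_singleton_self t0, ?_⟩
        ring
      have hc := Finset.card_le_card hYS
      have hst : (S + {t0}).card = S.card := by
        rw [Finset.add_singleton]
        exact Finset.card_image_of_injective _ (fun x y h => add_right_cancel h)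
      omega

theorem vosper [hp : Fact p.Prime] {S T : Finset (ZMod p)} (hS : 2 ≤ S.card) (hT : 2 ≤ T.card)
    (hcr : (S + T).card + 1 ≤ S.card + T.card) (hlt : (S + T).card + 2 ≤ p) :
    ∃ d : ZMod p, d ≠ 0 ∧ Cv d S ∧ Cv d T :=
  vosper_aux T.card S T rfl hS hT hcr hlt

end Pool.Agent.OEGZ
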