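import Pool.Agent.OEGZ.Crit
import Pool.Agent.OEGZ.Vosper

/-! # OEGZ: in a list without growing windows all sets are progressions with the same difference

Assume that every `ML`-part `M` of the cyclic list has `|τ M| ≥ 2` (`h2`) and `wt M + 3 ≤ p` (`h3`).
There is a set item `S` in `L` with `|S| ≥ 2` (otherwise `wt L = 0` and `|τ M| = 1` by `crit_all`), rotate so that
`L ~r inr S :: K`.  With `M` the `ML`-prefix of `K`, `τ (inr S :: M) = S + τ M` (`crit_inr`), `vosper` gives `d`, `Cv d (τ M)`.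
Claim: for all `n`, the `ML`-prefix `M` of `(K ++ [inr S]).rotate n` has `Cv d (τ M)`, and if the first item is a set `S'` then
`Cv d S'`.  Passing a set item `S'`: `τ (inr S' :: M') = S' + τ M'`; `Cv.of_sum`.  Passing a letter: `τ M' = τ M + ss Z`
(`crit_inl`), `Cv.of_critical` gives `Cv d (ss Z)`, `Cv.add` gives `Cv d (τ M')`. -/

set_option autoImplicit false

open scoped Classical Pointwise

namespace Pool.Agent.OEGZ

variable {A : Type} {p r : ℕ} {τ : List (It A p) → Finset (ZMod p)}

/-- the prefix of type `ML` is a progression -/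
def propag_C (τ : List (It A p) → Finset (ZMod p)) (r : ℕ) (d : ZMod p) (K : List (It A p)) : Prop :=
  ∀ M R, K = M ++ R → ML r M → Cv d (τ M)

theorem propag_wt_zero {L : List (It A p)}
    (h : ∀ S : Finset (ZMod p), Sum.inr S ∈ L → S.card ≤ 1) : wt L = 0 := by
  induction L with
  | nil => rfl
  | cons x L ih =>
    have h1 := ih (fun S hS => h S (List.mem_cons_of_mem _ hS))
    rcases x with a | S
    · exact h1
    · rw [wt_inr, h1]
      have := h S List.mem_cons_self
      omega

theorem propag_ml_cons {S : Finset (ZMod p)} {M : List (It A p)} (hM : ML r M) :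
    ML r (Sum.inr S :: M) := by
  obtain ⟨U, b, rfl, hU⟩ := hM
  exact ⟨Sum.inr S :: U, b, by simp, by simp [hU]⟩

theorem propag_win_cons {a : A} {M : List (It A p)} (hM : ML r M) :
    Win r (Sum.inl a :: M) := by
  obtain ⟨U, b, rfl, hU⟩ := hM
  exact ⟨a, U, b, rfl, hU⟩

theorem propag_wt_le {L M R : List (It A p)} (h : L.IsRotated (M ++ R)) : wt M ≤ wt L := by
  rw [wt_perm h.perm, wt_append]
  omega

theorem propag_step [hp : Fact p.Prime] (hτ : Tau r τ) {L : List (It A p)}
    (hrl : 2 * (r + 2) ≤ rl L + 1) (hok : Ok L) (hwt : wt L + 2 ≤ p) (hT : Tm τ r L)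
    (h2 : ∀ M R, L.IsRotated (M ++ R) → ML r M → 2 ≤ (τ M).card)
    (h3 : ∀ M R, L.IsRotated (M ++ R) → ML r M → wt M + 3 ≤ p)
    {d : ZMod p} (hd : d ≠ 0) {x : It A p} {K : List (It A p)} (hL : L.IsRotated (x :: K))
    (hC : propag_C τ r d (x :: K)) :
    propag_C τ r d (K ++ [x]) ∧ ∀ S : Finset (ZMod p), x = Sum.inr S → Cv d S := by
  have hrlK : r + 1 ≤ rl K := by
    have h4 := rl_perm hL.perm
    rcases x with a | S
    · rw [rl_inl] at h4
      omega
    · rw [rl_inr] at h4
      omega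
  obtain ⟨M', R', hK, hM'⟩ := exists_ML hrlK
  -- it is enough to treat the prefix `M'`
  have hred : Cv d (τ M') → propag_C τ r d (K ++ [x]) := by
    intro h M R hMR hM
    have h4 : M ++ R = M' ++ (R' ++ [x]) := by
      rw [← hMR, hK, List.append_assoc]
    rw [(ML_unique h4 hM hM').1]
    exact h
  have hL' : L.IsRotated (M' ++ (R' ++ [x])) := by
    refine hL.trans ?_
    rw [← List.append_assoc, ← hK]
    exact List.isRotated_append (l := [x]) (l' := K)
  have hcrit := crit_all hτ hrl hok hwt hT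
  have hokM' : Ok M' := (hok.perm hL'.perm).of_append_left
  rcases x with a | S
  · refine ⟨hred ?_, fun S hS => by cases hS⟩
    have hW : Win r (Sum.inl a :: M') := propag_win_cons hM'
    obtain ⟨M, Z, b, hMZ, hM, hZ⟩ := hW.split
    have hng : ¬ Gr τ (Sum.inl a :: M') := by
      apply hT (Sum.inl a :: M') R' _ hW
      rw [List.cons_append, ← hK]
      exact hL
    have e1 : wt M' = wt M + wt Z := by
      have h4 : wt (Sum.inl a :: M') = wt (M ++ (Z ++ [Sum.inl b])) := by rw [hMZ]
      rw [wt_inl, wt_append, wt_append, wt_inl, wt_nil] at h4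
      omega
    have hwM' : wt M' + 2 ≤ p := by
      have := propag_wt_le hL'
      omega
    have e2 := crit_inl hτ hMZ hM hM' hokM' hwM' hng
    have hLM : L.IsRotated (M ++ ((Z ++ [Sum.inl b]) ++ R')) := by
      rw [← List.append_assoc, ← hMZ, List.cons_append, ← hK]
      exact hL
    have hCM : Cv d (τ M) := by
      apply hC M ((Z ++ [Sum.inl b]) ++ R') _ hM
      rw [← List.append_assoc, ← hMZ, List.cons_append, ← hK]
    have e3 := hcrit M _ hLM hM
    have e4 := hcrit M' _ hL' hM'
    have hokW : Ok (M ++ (Z ++ [Sum.inl b])) := by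
      rw [← hMZ]
      exact hokM'.cons_inl
    have hokZ : Ok Z := hokW.of_append_right.of_append_left
    have e5 := ss_card hokZ
    have hCZ : Cv d (ss Z) := by
      apply Cv.of_critical hd hCM (h2 M _ hLM hM) (ss_nonempty hokZ)
      · rw [add_comm (ss Z), ← e2]
        omega
      · rw [add_comm (ss Z), ← e2]
        omega
    rw [e2]
    exact hCM.add hCZ
  · have hMS : ML r (Sum.inr S :: M') := propag_ml_cons hM'
    have hLS : L.IsRotated ((Sum.inr S :: M') ++ R') := by
      rw [List.cons_append, ← hK]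
      exact hL
    have hokS : Ok (Sum.inr S :: M') := (hok.perm hLS.perm).of_append_left
    have hwS : wt (Sum.inr S :: M') + 2 ≤ p := by
      have := propag_wt_le hLS
      omega
    have e1 := hcrit _ _ hLS hMS
    have e2 := hcrit _ _ hL' hM'
    have e3 := crit_inr hτ hokS hwS (by rw [hM'.rl_eq]) e1 e2
    have hCS : Cv d (S + τ M') := by
      rw [← e3]
      apply hC (Sum.inr S :: M') R' _ hMS
      rw [List.cons_append, ← hK]
    have e4 := hokS.head.card_pos
    have e5 := h3 _ _ hLS hMS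
    rw [wt_inr] at e1 e5
    obtain ⟨h5, h6⟩ := Cv.of_sum hd hCS hokS.head (hτ.nonempty hokM' (by rw [hM'.rl_eq]))
      (by rw [← e3]; omega) (by rw [← e3]; omega)
    refine ⟨hred h6, fun S' hS' => ?_⟩
    cases hS'
    exact h5

theorem all_cv [hp : Fact p.Prime] (hτ : Tau r τ) {L : List (It A p)}
    (hrl : 2 * (r + 2) ≤ rl L + 1) (hok : Ok L) (hwt : wt L + 2 ≤ p) (hT : Tm τ r L)
    (h2 : ∀ M R, L.IsRotated (M ++ R) → ML r M → 2 ≤ (τ M).card)
    (h3 : ∀ M R, L.IsRotated (M ++ R) → ML r M → wt M + 3 ≤ p) :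
    ∃ d : ZMod p, d ≠ 0 ∧ (∀ M R, L.IsRotated (M ++ R) → ML r M → Cv d (τ M)) ∧
      (∀ S : Finset (ZMod p), Sum.inr S ∈ L → Cv d S) := by
  have hcrit := crit_all hτ hrl hok hwt hT
  obtain ⟨S, hS, hS2⟩ : ∃ S : Finset (ZMod p), Sum.inr S ∈ L ∧ 2 ≤ S.card := by
    by_contra hcon
    push Not at hcon
    have h4 : wt L = 0 := propag_wt_zero (fun S hS => by
      have := hcon S hS
      omega)
    obtain ⟨M, R, hMR, hM⟩ := exists_ML (r := r) (L := L) (by omega)
    have h5 : L.IsRotated (M ++ R) := by rw [← hMR]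
    have h6 := hcrit M R h5 hM
    have h7 := h2 M R h5 hM
    have h8 := propag_wt_le h5
    omega
  obtain ⟨L1, L2, hL12⟩ := List.append_of_mem hS
  have hrlK : r + 1 ≤ rl (L2 ++ L1) := by
    have h4 : rl L = rl (L1 ++ Sum.inr S :: L2) := by rw [hL12]
    rw [rl_append, rl_inr] at h4
    rw [rl_append]
    omega
  obtain ⟨M, R, hK, hM⟩ := exists_ML hrlK
  have hLS : L.IsRotated ((Sum.inr S :: M) ++ R) := by
    rw [List.cons_append, ← hK, hL12]
    exact List.isRotated_append (l := L1) (l' := Sum.inr S :: L2)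
  have hLM : L.IsRotated (M ++ (R ++ [Sum.inr S])) := by
    refine hLS.trans ?_
    rw [← List.append_assoc, List.cons_append]
    exact List.isRotated_append (l := [Sum.inr S]) (l' := M ++ R)
  have hMS : ML r (Sum.inr S :: M) := propag_ml_cons hM
  have hokS : Ok (Sum.inr S :: M) := (hok.perm hLS.perm).of_append_left
  have hwS : wt (Sum.inr S :: M) + 2 ≤ p := by
    have := propag_wt_le hLS
    omega
  have e1 := hcrit _ _ hLS hMS
  have e2 := hcrit _ _ hLM hM
  have e3 := crit_inr hτ hokS hwS (by rw [hM.rl_eq]) e1 e2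
  have e5 := h3 _ _ hLS hMS
  rw [wt_inr] at e1 e5
  obtain ⟨d, hd, hdS, hdM⟩ := vosper hS2 (h2 M _ hLM hM) (by rw [← e3]; omega)
    (by rw [← e3]; omega)
  have hstep : ∀ n, propag_C τ r d ((M ++ (R ++ [Sum.inr S])).rotate n) := by
    intro n
    induction n with
    | zero =>
      rw [List.rotate_zero]
      intro M1 R1 h4 h5
      rw [← (ML_unique h4 hM h5).1]
      exact hdM
    | succ n ih =>
      have hrot : L.IsRotated ((M ++ (R ++ [Sum.inr S])).rotate n) :=
        hLM.trans ⟨n, rfl⟩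
      rcases hc : (M ++ (R ++ [Sum.inr S])).rotate n with _ | ⟨x, K⟩
      · exfalso
        rw [hc] at hrot
        have h4 := rl_perm hrot.perm
        rw [rl_nil] at h4
        omega
      · rw [← List.rotate_rotate, hc, List.rotate_cons_succ, List.rotate_zero]
        rw [hc] at ih hrot
        exact (propag_step hτ hrl hok hwt hT h2 h3 hd hrot ih).1
  refine ⟨d, hd, ?_, ?_⟩
  · intro M1 R1 h4 h5
    obtain ⟨n, hn⟩ := hLM.symm.trans h4
    exact hstep n M1 R1 hn h5
  · intro S' hS'
    have h4 : Sum.inr S' ∈ M ++ (R ++ [Sum.inr S]) := hLM.perm.mem_iff.1 hS'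
    obtain ⟨B1, B2, hB⟩ := List.append_of_mem h4
    have h5 : (M ++ (R ++ [Sum.inr S])).rotate B1.length = Sum.inr S' :: (B2 ++ B1) := by
      rw [hB, List.rotate_append_length_eq, List.cons_append]
    have h6 := hstep B1.length
    rw [h5] at h6
    have h7 : L.IsRotated (Sum.inr S' :: (B2 ++ B1)) := by
      rw [← h5]
      exact hLM.trans ⟨_, rfl⟩
    exact (propag_step hτ hrl hok hwt hT h2 h3 hd h7 h6).2 S' rfl

end Pool.Agent.OEGZ
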