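import Pool.Agent.OEGZ.Unique

/-! # OEGZ: all windows can be chosen `v`-good

Induction on `k`.  If `Tm τ r L`: the sequence in `Val` is empty, and `Val τ r (Gd τ v) L v` holds with the empty sequence.
Otherwise there are growing windows.  For each growing `(W, R)`, `L ~r W ++ R`: `L1 = inr (τ W) :: R` has some constant (`exist`), it is `v` by
`unique` for `L`, so `Val τ r (Gd τ v) L1 v` by induction.  If some growing `W` is `v`-good, prepend it.
Suppose no growing window of `L` is `v`-good.  Take a growing `(W, R)` and apply `arc_main` with `P = Gd τ v` to `L1 ~r [inr (τ W)] ++ R`: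
(windows inside `R` are windows of the cyclic list `L`) this gives `R = X ++ M ++ Y`, `GM τ v M`; `L ~r M ++ (Y ++ W ++ X)`;
`slide_cyclic` gives `Tm τ r L`, a contradiction. -/

set_option autoImplicit false

open scoped Classical Pointwise

namespace Pool.Agent.OEGZ

variable {A : Type} {p r : ℕ} {τ : List (It A p) → Finset (ZMod p)}

theorem resolve [hp : Fact p.Prime] (hτ : Tau r τ) {k : ℕ} {L : List (It A p)} {v : ZMod p}
    (hs : St r k L) (hf : ¬ Full τ r L) (h : Val τ r Tr L v) : Val τ r (Gd τ v) L v := by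
  induction k generalizing L with
  | zero => exact absurd hs.pos (by omega)
  | succ k ih =>
    by_cases hT : Tm τ r L
    · obtain ⟨L', h1, h2, h3⟩ := h
      rcases Relation.ReflTransGen.cases_head h1 with rfl | ⟨L1, ⟨W, R, hWR, hW, hG, -, -⟩, -⟩
      · exact ⟨_, Relation.ReflTransGen.refl, h2, h3⟩
      · exact absurd hG (hT W R hWR hW)
    · -- every reduced list can be resolved
      have key : ∀ W R, L.IsRotated (W ++ R) → Win r W → Gr τ W →
          Val τ r (Gd τ v) (Sum.inr (τ W) :: R) v := by
        intro W R hWR hW hG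
        have hred : RedP τ r Tr L (Sum.inr (τ W) :: R) := ⟨W, R, hWR, hW, hG, trivial, rfl⟩
        obtain ⟨k', hk', hs', hf'⟩ := hred.st' hs hf
        obtain rfl : k = k' := by omega
        obtain ⟨u, hu⟩ := exist hτ hs' hf'
        have hLu : Val τ r Tr L u := by
          obtain ⟨L', h1, h2, h3⟩ := hu
          exact ⟨L', Relation.ReflTransGen.head hred h1, h2, h3⟩
        obtain rfl := unique hτ hs hf h hLu
        exact ih hs' hf' hu
      by_cases hgood : ∃ W R, L.IsRotated (W ++ R) ∧ Win r W ∧ Gr τ W ∧ Gd τ v W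
      · obtain ⟨W, R, hWR, hW, hG, hg⟩ := hgood
        obtain ⟨L', h1, h2, h3⟩ := key W R hWR hW hG
        exact ⟨L', Relation.ReflTransGen.head ⟨W, R, hWR, hW, hG, hg, rfl⟩ h1, h2, h3⟩
      · exfalso
        have hno : ∀ W R, L.IsRotated (W ++ R) → Win r W → Gr τ W → ¬ Gd τ v W :=
          fun W R h1 h2 h3 h4 => hgood ⟨W, R, h1, h2, h3, h4⟩
        obtain ⟨W, R, hWR, hW, hG⟩ : ∃ W R, L.IsRotated (W ++ R) ∧ Win r W ∧ Gr τ W := by
          by_contra hc
          exact hT fun W R h1 h2 h3 => hc ⟨W, R, h1, h2, h3⟩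
        have hred : RedP τ r Tr L (Sum.inr (τ W) :: R) := ⟨W, R, hWR, hW, hG, trivial, rfl⟩
        obtain ⟨k', hk', hs', hf'⟩ := hred.st' hs hf
        obtain ⟨X, M, Y, hR, hM, hGM⟩ := arc_main (D := [Sum.inr (τ W)]) (C := R) hτ hs' hf'
          (List.IsRotated.refl _) (by simp) (by
            intro X V Y hR hV hGV
            refine hno V (Y ++ W ++ X) ?_ hV hGV
            refine hWR.trans ?_
            rw [hR]
            have h1 : (W ++ X ++ (V ++ Y)).IsRotated ((V ++ Y) ++ (W ++ X)) := List.isRotated_append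
            simpa [List.append_assoc] using h1) (key W R hWR hW hG)
        obtain ⟨-, h2, h3⟩ := hs.two hf
        refine hT (slide_cyclic (M0 := M) (R0 := Y ++ W ++ X) hτ h3 hs.ok h2 ?_ hM hGM hno).2
        refine hWR.trans ?_
        rw [hR]
        have h1 : (W ++ X ++ (M ++ Y)).IsRotated ((M ++ Y) ++ (W ++ X)) := List.isRotated_append
        simpa [List.append_assoc] using h1

end Pool.Agent.OEGZ
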