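import Pool.Agent.OEGZ.Basic

/-! # OEGZ: moving along the list by one item

* `GM.unique`: `τ M ⊇ {v, v'} + ss M` and `|ss M| ≥ 1 + wt M = |τ M|`; Cauchy-Davenport.
* `GM.tail`: `S + τ M ⊆ τ (inr S :: M)`, `S + (v + ss M) ⊆ τ (inr S :: M)` and `|τ (inr S :: M)| = |S| + wt M`;
  `cancel` (with `T` one of the sets, `B` the other, `C = τ (inr S :: M)`).
* `PP.step`: let `M'` be the `ML`-prefix of `L`.  If `x = inr S` then `inr S :: M'` is the `ML`-prefix of `x :: L`; use
  `GM.tail`.  If `x = inl a` then `W = inl a :: M'` is a window (`Win r`) at the front of `x :: L`, so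
  `|τ W| ≤ 1 + wt W`; `W = M ++ (Z ++ [inl b])` with `M` of type `ML`, `rl Z = 0` (`Win.split`), `M` is the `ML`-prefix of
  `x :: L` so `GM τ v M`, `Gd.ext` gives `Gd τ v W`; by `ss_card` `τ W = v + ss W`; `τ M' ⊆ τ W`, `|τ M'| ≥ 1 + wt M' =
  1 + wt W`, so `τ M' = τ W` and `ss W = ss M'`.
* `PP.append`: uniqueness of the `ML`-prefix.
* `PP.front`: a window `W` at the front of `L`: `Win.split` and `Gd.ext`. -/

set_option autoImplicit false

open scoped Classical Pointwise

namespace Pool.Agent.OEGZ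

variable {A : Type} {p r : ℕ} {τ : List (It A p) → Finset (ZMod p)}

/-- translates inside `τ M` -/
theorem step_sub {v : ZMod p} {M : List (It A p)} (h : Gd τ v M) : ({v} : Finset (ZMod p)) + ss M ⊆ τ M := by
  intro x hx
  rw [Finset.mem_add] at hx
  obtain ⟨y, hy, z, hz, rfl⟩ := hx
  rw [Finset.mem_singleton] at hy
  rw [hy]
  exact h z hz

theorem step_eq [hp : Fact p.Prime] {v : ZMod p} {M : List (It A p)} (hok : Ok M)
    (hwt : wt M + 2 ≤ p) (h : Gd τ v M) (hc : (τ M).card ≤ 1 + wt M) :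
    τ M = {v} + ss M := by
  refine (Finset.eq_of_subset_of_card_le (step_sub h) ?_).symm
  have h1 := ss_card hok
  rw [Finset.singleton_add, Finset.card_vadd_finset]
  omega

theorem GM.unique [hp : Fact p.Prime] {v v' : ZMod p} {M : List (It A p)} (hok : Ok M)
    (hwt : wt M + 2 ≤ p) (h : GM τ v M) (h' : GM τ v' M) : v = v' := by
  by_contra hne
  have h1 : ({v, v'} : Finset (ZMod p)) + ss M ⊆ τ M := by
    intro x hx
    rw [Finset.mem_add] at hx
    obtain ⟨y, hy, z, hz, rfl⟩ := hx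
    rcases Finset.mem_insert.1 hy with rfl | hy
    · exact h.1 z hz
    · rw [Finset.mem_singleton] at hy
      rw [hy]
      exact h'.1 z hz
  have h2 := cd (S := ({v, v'} : Finset (ZMod p))) (T := ss M) ⟨v, by simp⟩ (ss_nonempty hok)
  rw [Finset.card_pair hne] at h2
  have h3 := Finset.card_le_card h1
  have h4 := ss_card hok
  have h5 := h.2
  omega

theorem GM.tail [hp : Fact p.Prime] (hτ : Tau r τ) {v : ZMod p} {S : Finset (ZMod p)}
    {M : List (It A p)} (hok : Ok (Sum.inr S :: M)) (hwt : wt (Sum.inr S :: M) + 2 ≤ p) (hM : r + 1 ≤ rl M)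
    (h : GM τ v (Sum.inr S :: M)) : GM τ v M := by
  have hS := hok.head
  have hSc := hS.card_pos
  have h1 : S + τ M ⊆ τ (Sum.inr S :: M) := hτ.inrL S M
  have h2 : S + (({v} : Finset (ZMod p)) + ss M) ⊆ τ (Sum.inr S :: M) := by
    have h3 := step_sub h.1
    rw [ss_inr] at h3
    rwa [← add_assoc, add_comm S, add_assoc]
  have hcard := h.2
  rw [wt_inr] at hcard hwt
  have h4 := hτ.card M hok.of_cons hM
  have hne := hτ.nonempty hok.of_cons hM
  have h5 : ({v} : Finset (ZMod p)) + ss M ⊆ τ M :=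
    cancel hS hne h1 h2 (by omega) (by omega)
  refine ⟨?_, ?_⟩
  · intro x hx
    exact h5 (Finset.add_mem_add (Finset.mem_singleton_self v) hx)
  · have h6 := cd hS hne
    have h7 := Finset.card_le_card h1
    have h8 := hne.card_pos
    omega

theorem PP.append {v : ZMod p} {L : List (It A p)} (hL : r + 1 ≤ rl L) (h : PP τ r v L)
    (Z : List (It A p)) : PP τ r v (L ++ Z) := by
  intro M R hMR hM
  obtain ⟨M', R', rfl, hM'⟩ := exists_ML hL
  rw [List.append_assoc] at hMR
  obtain ⟨rfl, -⟩ := ML_unique hMR hM' hM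
  exact h _ _ rfl hM'

theorem PP.front (hτ : Tau r τ) {v : ZMod p} {L W R : List (It A p)} (h : PP τ r v L)
    (hL : L = W ++ R) (hW : Win r W) : Gd τ v W := by
  obtain ⟨M, Z, b, rfl, hM, -⟩ := hW.split
  have h1 := h M ((Z ++ [Sum.inl b]) ++ R) (by rw [hL, List.append_assoc]) hM
  have h2 := Gd.ext hτ h1.1 [] (Z ++ [Sum.inl b])
  simpa using h2

theorem PP.step [hp : Fact p.Prime] (hτ : Tau r τ) {v : ZMod p} {x : It A p} {L : List (It A p)}
    (hok : Ok (x :: L)) (hwt : wt (x :: L) + 2 ≤ p) (hng : NG τ r (x :: L)) (h : PP τ r v (x :: L)) :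
    PP τ r v L := by
  rintro M' R rfl hM'
  have hrl := hM'.rl_eq
  rcases x with a | S
  · -- a letter
    have hW : Win r (Sum.inl a :: M') := by
      obtain ⟨U, b, rfl, hU⟩ := hM'
      exact ⟨a, U, b, rfl, hU⟩
    have hg : Gd τ v (Sum.inl a :: M') := h.front hτ (by simp : (Sum.inl a :: (M' ++ R) : List (It A p)) = (Sum.inl a :: M') ++ R) hW
    have hn := hng (Sum.inl a :: M') R (by simp) hW
    unfold Gr at hn
    rw [wt_inl, wt_append] at hwt
    rw [wt_inl] at hn
    have hok' : Ok M' := hok.of_cons.of_append_left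
    have h1 := hτ.card M' hok' (by omega)
    have h2 : τ M' ⊆ τ (Sum.inl a :: M') := hτ.inlL a M'
    have h3 := Finset.card_le_card h2
    have h4 : τ M' = τ (Sum.inl a :: M') := Finset.eq_of_subset_of_card_le h2 (by omega)
    refine ⟨?_, ?_⟩
    · intro y hy
      rw [h4]
      exact hg y hy
    · omega
  · -- a set
    have hM : ML r (Sum.inr S :: M') := by
      obtain ⟨U, b, rfl, hU⟩ := hM'
      exact ⟨Sum.inr S :: U, b, rfl, hU⟩
    have h1 := h (Sum.inr S :: M') R (by simp) hM
    have hok' : Ok (Sum.inr S :: M') := by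
      have : Ok ((Sum.inr S :: M') ++ R) := by simpa using hok
      exact this.of_append_left
    refine GM.tail hτ hok' ?_ (by omega) h1
    rw [wt_inr, wt_append] at hwt
    rw [wt_inr]
    omega

end Pool.Agent.OEGZ
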