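import Pool.Agent.OEGZ.ArcMain
import Pool.Agent.OEGZ.Overlap

/-! # OEGZ: uniqueness of the constant (confluence)

Induction on `k`.  If the sequences of both `Val` are empty: `AP` for `v` and `v'`, take any `ML`-part and `GM.unique`; if one is empty and
the other is not: `Tm` contradicts the first reduction.  Otherwise `L` reduces to `L1 = inr (τ W) :: R` and `L1' = inr (τ W') :: R'` with
`Val τ r Tr L1 v`, `Val τ r Tr L1' v'`.  Apply `overlap`.
* `W = W'`, `R = R'`: induction hypothesis.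
* disjoint (`disj`): `R = A' ++ W' ++ B`, `R' = B ++ W ++ A'`: `L1` reduces to `M = inr (τ W') :: (B ++ [inr (τ W)] ++ A')`, `L1'` reduces to
  `M' = inr (τ W) :: (A' ++ [inr (τ W')] ++ B)`, `M ~r M'`.  By `exist` there is `u` with `Val M u`, so `Val L1 u`, `Val L1' u` and by induction
  `u = v`, `u = v'`.
* overlapping, `W = X ++ Y`, `W' = Y ++ Z`, `R = Z ++ C`, `R' = C ++ X`, `Y ≠ []`: `rl Y ≥ 1` (it starts as `W'`), so `rl X, rl Z ≤ r + 1`.
  - a growing window `V` inside `C = C1 ++ V ++ C2`: it is disjoint from `W` and from `W'`; by `exist` `Val (inr (τ V) :: ..) u` for some `u`, and by the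
    disjoint case twice `u = v`, `u = v'`.
  - no growing window inside `C`: `arc_main` for `L1 ~r ([inr (τ W)] ++ Z) ++ C` and for `L1' ~r (X ++ [inr (τ W')]) ++ C` gives `M0`, `M1` inside `C` with
    `GM τ v M0`, `GM τ v' M1`; `slide_linear` (from the left one to the right one) and `GM.unique`.
* the fourth alternative is the third one with the roles exchanged. -/

set_option autoImplicit false

open scoped Classical Pointwise

namespace Pool.Agent.OEGZ

variable {A : Type} {p r : ℕ} {τ : List (It A p) → Finset (ZMod p)}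

theorem unique_head {P : List (It A p) → Prop} {L L' : List (It A p)} {v : ZMod p}
    (h : RedP τ r P L L') (h' : Val τ r P L' v) : Val τ r P L v := by
  obtain ⟨L2, h1, h2, h3⟩ := h'
  exact ⟨L2, Relation.ReflTransGen.head h h1, h2, h3⟩

theorem unique_st [hp : Fact p.Prime] {P : List (It A p) → Prop} {k : ℕ} {L L' : List (It A p)}
    (hs : St r (k + 1) L) (hf : ¬ Full τ r L) (h : RedP τ r P L L') :
    St r k L' ∧ ¬ Full τ r L' := by
  obtain ⟨k', hk', h1, h2⟩ := RedP.st' hs hf h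
  have : k' = k := by omega
  subst this
  exact ⟨h1, h2⟩

theorem unique_rot (X Y : List (It A p)) : (X ++ Y).IsRotated (Y ++ X) :=
  List.isRotated_append

/-- the constants of two reduced lists agree if the windows are disjoint -/
theorem disj [hp : Fact p.Prime] (hτ : Tau r τ) {k : ℕ} {v v' : ZMod p}
    {W A' W' B : List (It A p)} (hs : St r (k + 1) (W ++ (A' ++ W' ++ B)))
    (hf : ¬ Full τ r (W ++ (A' ++ W' ++ B))) (hW : Win r W) (hW' : Win r W') (hG : Gr τ W)
    (hG' : Gr τ W')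
    (ih : ∀ (L : List (It A p)) (v v' : ZMod p), St r k L → ¬ Full τ r L → Val τ r Tr L v →
      Val τ r Tr L v' → v = v')
    (h1 : Val τ r Tr (Sum.inr (τ W) :: (A' ++ W' ++ B)) v)
    (h2 : Val τ r Tr (Sum.inr (τ W') :: (B ++ W ++ A')) v') : v = v' := by
  have hr1 : RedP τ r Tr (W ++ (A' ++ W' ++ B)) (Sum.inr (τ W) :: (A' ++ W' ++ B)) :=
    ⟨W, A' ++ W' ++ B, List.IsRotated.refl _, hW, hG, trivial, rfl⟩
  have hr2 : RedP τ r Tr (W ++ (A' ++ W' ++ B)) (Sum.inr (τ W') :: (B ++ W ++ A')) := by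
    refine ⟨W', B ++ W ++ A', ?_, hW', hG', trivial, rfl⟩
    have h := unique_rot (W ++ A') (W' ++ B)
    simpa only [List.append_assoc] using h
  obtain ⟨hs1, hf1⟩ := unique_st hs hf hr1
  obtain ⟨hs2, hf2⟩ := unique_st hs hf hr2
  have hr3 : RedP τ r Tr (Sum.inr (τ W) :: (A' ++ W' ++ B))
      (Sum.inr (τ W') :: (B ++ [Sum.inr (τ W)] ++ A')) := by
    refine ⟨W', B ++ [Sum.inr (τ W)] ++ A', ?_, hW', hG', trivial, rfl⟩
    have h := unique_rot ([Sum.inr (τ W)] ++ A') (W' ++ B)
    simpa only [List.append_assoc, List.singleton_append, List.cons_append, List.nil_append] using h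
  have hr4 : RedP τ r Tr (Sum.inr (τ W') :: (B ++ W ++ A'))
      (Sum.inr (τ W) :: (A' ++ [Sum.inr (τ W')] ++ B)) := by
    refine ⟨W, A' ++ [Sum.inr (τ W')] ++ B, ?_, hW, hG, trivial, rfl⟩
    have h := unique_rot ([Sum.inr (τ W')] ++ B) (W ++ A')
    simpa only [List.append_assoc, List.singleton_append, List.cons_append, List.nil_append] using h
  obtain ⟨k3, hk3, hs3, hf3⟩ := RedP.st' hs1 hf1 hr3
  obtain ⟨u, hu⟩ := exist hτ hs3 hf3
  have hrot : (Sum.inr (τ W') :: (B ++ [Sum.inr (τ W)] ++ A') : List (It A p)).IsRotated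
      (Sum.inr (τ W) :: (A' ++ [Sum.inr (τ W')] ++ B)) := by
    have h := unique_rot ([Sum.inr (τ W')] ++ B) ([Sum.inr (τ W)] ++ A')
    simpa only [List.append_assoc, List.singleton_append, List.cons_append, List.nil_append] using h
  have hu' : Val τ r Tr (Sum.inr (τ W) :: (A' ++ [Sum.inr (τ W')] ++ B)) u := hu.rot hrot
  have e1 : v = u := ih _ _ _ hs1 hf1 h1 (unique_head hr3 hu)
  have e2 : v' = u := ih _ _ _ hs2 hf2 h2 (unique_head hr4 hu')
  rw [e1, e2]

theorem unique_over [hp : Fact p.Prime] (hτ : Tau r τ) {k : ℕ} {v v' : ZMod p}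
    {X Y Z C : List (It A p)} (hs : St r (k + 1) ((X ++ Y) ++ (Z ++ C)))
    (hf : ¬ Full τ r ((X ++ Y) ++ (Z ++ C))) (hW : Win r (X ++ Y)) (hW' : Win r (Y ++ Z))
    (hG : Gr τ (X ++ Y)) (hG' : Gr τ (Y ++ Z)) (hY : Y ≠ [])
    (ih : ∀ (L : List (It A p)) (v v' : ZMod p), St r k L → ¬ Full τ r L → Val τ r Tr L v →
      Val τ r Tr L v' → v = v')
    (h1 : Val τ r Tr (Sum.inr (τ (X ++ Y)) :: (Z ++ C)) v)
    (h2 : Val τ r Tr (Sum.inr (τ (Y ++ Z)) :: (C ++ X)) v') : v = v' := by
  have hrotL : ((X ++ Y) ++ (Z ++ C)).IsRotated ((Y ++ Z) ++ (C ++ X)) := by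
    have h := unique_rot X (Y ++ (Z ++ C))
    simpa only [List.append_assoc] using h
  have hr1 : RedP τ r Tr ((X ++ Y) ++ (Z ++ C)) (Sum.inr (τ (X ++ Y)) :: (Z ++ C)) :=
    ⟨X ++ Y, Z ++ C, List.IsRotated.refl _, hW, hG, trivial, rfl⟩
  have hr2 : RedP τ r Tr ((X ++ Y) ++ (Z ++ C)) (Sum.inr (τ (Y ++ Z)) :: (C ++ X)) :=
    ⟨Y ++ Z, C ++ X, hrotL, hW', hG', trivial, rfl⟩
  obtain ⟨hs1, hf1⟩ := unique_st hs hf hr1
  obtain ⟨hs2, hf2⟩ := unique_st hs hf hr2
  by_cases hV : ∃ C1 V C2, C = C1 ++ V ++ C2 ∧ Win r V ∧ Gr τ V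
  · obtain ⟨C1, V, C2, rfl, hV, hGV⟩ := hV
    have hr3 : RedP τ r Tr ((X ++ Y) ++ (Z ++ (C1 ++ V ++ C2)))
        (Sum.inr (τ V) :: (C2 ++ (X ++ Y) ++ (Z ++ C1))) := by
      refine ⟨V, C2 ++ (X ++ Y) ++ (Z ++ C1), ?_, hV, hGV, trivial, rfl⟩
      have h := unique_rot (X ++ (Y ++ (Z ++ C1))) (V ++ C2)
      simpa only [List.append_assoc] using h
    obtain ⟨hs3, hf3⟩ := unique_st hs hf hr3
    obtain ⟨u, hu⟩ := exist hτ hs3 hf3
    have e1 : v = u := by
      refine disj hτ (W := X ++ Y) (A' := Z ++ C1) (W' := V) (B := C2) ?_ ?_ hW hV hG hGV ih ?_ hu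
      · simpa only [List.append_assoc] using hs
      · simpa only [List.append_assoc] using hf
      · simpa only [List.append_assoc] using h1
    have e2 : v' = u := by
      refine disj hτ (W := Y ++ Z) (A' := C1) (W' := V) (B := C2 ++ X) ?_ ?_ hW' hV hG' hGV ih ?_ ?_
      · have h := hs.rot hrotL
        simpa only [List.append_assoc] using h
      · intro h
        refine hf (Full.rot h ?_)
        have h' := hrotL.symm
        simpa only [List.append_assoc] using h'
      · simpa only [List.append_assoc] using h2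
      · simpa only [List.append_assoc] using hu
    rw [e1, e2]
  · have hno : ∀ X0 W0 Y0, C = X0 ++ W0 ++ Y0 → Win r W0 → ¬ Gr τ W0 := by
      intro X0 W0 Y0 h0 h3 h4
      exact hV ⟨X0, W0, Y0, h0, h3, h4⟩
    have hrlY : 1 ≤ rl Y := by
      obtain ⟨a, U, b, hab, -⟩ := hW'
      rcases Y with _ | ⟨y, Y⟩
      · exact absurd rfl hY
      · rw [List.cons_append] at hab
        have hy := (List.cons.inj hab).1
        rw [hy]
        simp
    have hrlW := hW.rl_eq
    have hrlW' := hW'.rl_eq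
    rw [rl_append] at hrlW hrlW'
    obtain ⟨X0, M0, Y0, hC0, hM0, hGM0⟩ := arc_main hτ (P := Tr) (D := Sum.inr (τ (X ++ Y)) :: Z)
      (C := C) hs1 hf1 (List.IsRotated.refl _) (by simp; omega)
      (fun X0 W0 Y0 h0 h3 h4 _ => hno X0 W0 Y0 h0 h3 h4) h1
    obtain ⟨X1, M1, Y1, hC1, hM1, hGM1⟩ := arc_main hτ (P := Tr) (D := X ++ [Sum.inr (τ (Y ++ Z))])
      (C := C) hs2 hf2 (by
        have h := unique_rot ([Sum.inr (τ (Y ++ Z))] ++ C) X
        simpa only [List.append_assoc, List.singleton_append, List.cons_append, List.nil_append]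
          using h) (by simp; omega)
      (fun X0 W0 Y0 h0 h3 h4 _ => hno X0 W0 Y0 h0 h3 h4) h2
    have hok : Ok C := by
      have h := hs.ok
      exact (h.of_append_right).of_append_right
    obtain ⟨-, hwt, -⟩ := St.two hs hf
    have hwtC : wt C + 2 ≤ p := by
      rw [wt_append, wt_append, wt_append] at hwt
      omega
    have hokM : ∀ X2 M2 Y2 : List (It A p), C = X2 ++ M2 ++ Y2 → Ok M2 ∧ wt M2 + 2 ≤ p := by
      intro X2 M2 Y2 h
      constructor
      · rw [h] at hok
        exact hok.of_append_left.of_append_right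
      · rw [h, wt_append, wt_append] at hwtC
        omega
    rcases le_total X0.length X1.length with hle | hle
    · have h := slide_linear hτ hC0 hC1 hM0 hM1 hle hok hwtC hno hGM0
      exact GM.unique (hokM _ _ _ hC1).1 (hokM _ _ _ hC1).2 h hGM1
    · have h := slide_linear hτ hC1 hC0 hM1 hM0 hle hok hwtC hno hGM1
      exact GM.unique (hokM _ _ _ hC0).1 (hokM _ _ _ hC0).2 hGM0 h

theorem unique_all [hp : Fact p.Prime] (hτ : Tau r τ) (k : ℕ) : ∀ (L : List (It A p)) (v v' : ZMod p),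
    St r k L → ¬ Full τ r L → Val τ r Tr L v → Val τ r Tr L v' → v = v' := by
  induction k with
  | zero =>
    intro L v v' hs
    exact absurd hs.pos (by omega)
  | succ k ih =>
    intro L v v' hs hf h h'
    obtain ⟨L1, hr, hT, hA⟩ := h
    obtain ⟨L2, hr', hT', hA'⟩ := h'
    obtain ⟨-, hwt, hrl⟩ := St.two hs hf
    have hcon : ∀ {L3 : List (It A p)}, Tm τ r L → ¬ RedP τ r Tr L L3 := by
      rintro L3 hTm ⟨W, R, h1, h2, h3, -, -⟩
      exact hTm W R h1 h2 h3
    rcases Relation.ReflTransGen.cases_head hr with h1 | ⟨K, hK, hKr⟩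
    · rcases Relation.ReflTransGen.cases_head hr' with h2 | ⟨K', hK', hKr'⟩
      · obtain ⟨M, R, hMR, hM⟩ := exists_ML (r := r) (L := L) (by omega)
        have hokM : Ok M := by
          have h := hs.ok
          rw [hMR] at h
          exact h.of_append_left
        have hwtM : wt M + 2 ≤ p := by
          rw [hMR, wt_append] at hwt
          omega
        subst h1
        subst h2
        exact GM.unique hokM hwtM (hA M R (by rw [← hMR]) hM) (hA' M R (by rw [← hMR]) hM)
      · subst h1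
        exact absurd hK' (hcon hT)
    · rcases Relation.ReflTransGen.cases_head hr' with h2 | ⟨K', hK', hKr'⟩
      · subst h2
        exact absurd hK (hcon hT')
      · have hv : Val τ r Tr K v := ⟨L1, hKr, hT, hA⟩
        have hv' : Val τ r Tr K' v' := ⟨L2, hKr', hT', hA'⟩
        obtain ⟨hsK, hfK⟩ := unique_st hs hf hK
        obtain ⟨W, R, hLW, hW, hG, -, rfl⟩ := hK
        obtain ⟨W', R', hLW', hW', hG', -, rfl⟩ := hK'
        have hrl' : 2 * (r + 2) ≤ rl (W ++ R) + 1 := by
          rw [← rl_perm hLW.perm]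
          exact hrl
        have hsW : St r (k + 1) (W ++ R) := hs.rot hLW
        have hfW : ¬ Full τ r (W ++ R) := fun h => hf (h.rot hLW.symm)
        have hsW' : St r (k + 1) (W' ++ R') := hs.rot hLW'
        have hfW' : ¬ Full τ r (W' ++ R') := fun h => hf (h.rot hLW'.symm)
        rcases overlap (hLW.symm.trans hLW') hW hW' hrl' with h | h | h | h
        · obtain ⟨rfl, rfl⟩ := h
          exact ih _ _ _ hsK hfK hv hv'
        · obtain ⟨A', B, rfl, rfl⟩ := h
          exact disj hτ hsW hfW hW hW' hG hG' ih hv hv'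
        · obtain ⟨X, Y, Z, C, rfl, rfl, rfl, rfl, hY⟩ := h
          exact unique_over hτ hsW hfW hW hW' hG hG' hY ih hv hv'
        · obtain ⟨X, Y, Z, C, rfl, rfl, rfl, rfl, hY⟩ := h
          exact (unique_over hτ hsW' hfW' hW' hW hG' hG hY ih hv' hv).symm

theorem unique [hp : Fact p.Prime] (hτ : Tau r τ) {k : ℕ} {L : List (It A p)} {v v' : ZMod p}
    (hs : St r k L) (hf : ¬ Full τ r L) (h : Val τ r Tr L v) (h' : Val τ r Tr L v') : v = v' :=
  unique_all hτ k L v v' hs hf h h'

end Pool.Agent.OEGZ
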